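import Mathlib

/-!
# The BFACF algorithm in slabs of the cubic lattice
-/

namespace Pool.Agent.Lib.MP_dd2c10_pr

/-- The points of the cubic lattice. -/
abbrev Pt : Type := ℤ × ℤ × ℤ

/-- The cubic lattice: two points are adjacent when they differ by one in exactly one coordinate,
that is, when their `ℓ¹` distance is one. -/
def cubic : SimpleGraph Pt where
  Adj u v := |u.1 - v.1| + |u.2.1 - v.2.1| + |u.2.2 - v.2.2| = 1
  symm := ⟨fun u v h => by
    rw [abs_sub_comm v.1, abs_sub_comm v.2.1, abs_sub_comm v.2.2]
    exact h⟩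
  loopless := ⟨fun u h => by simp at h⟩

/-- `ω` is (the edge set of) a lattice polygon in the slab `0 ≤ z ≤ w`: it is the set of edges of
a cycle of the cubic lattice (a closed walk visiting each of its vertices exactly once), all of
whose vertices lie in the slab. -/
def IsPolygon (w : ℤ) (ω : Set (Sym2 Pt)) : Prop :=
  ∃ (v : Pt) (c : cubic.Walk v v), c.IsCycle ∧ (∀ x ∈ c.support, 0 ≤ x.2.2 ∧ x.2.2 ≤ w) ∧
    ω = {e | e ∈ c.edges}

/-- The three coordinate unit vectors. -/
def unitVec : Fin 3 → Pt := ![(1, 0, 0), (0, 1, 0), (0, 0, 1)]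

/-- The four edges of the unit square with corner `v` spanned by the coordinate directions
`i` and `j`. -/
def plaquette (v : Pt) (i j : Fin 3) : Set (Sym2 Pt) :=
  {s(v, v + unitVec i), s(v + unitVec i, v + unitVec i + unitVec j),
    s(v + unitVec i + unitVec j, v + unitVec j), s(v + unitVec j, v)}

/-- Elementary move of the BFACF algorithm in the slab `0 ≤ z ≤ w`: both `ω` and `ω'` are polygons
in the slab and `ω'` is the symmetric difference of `ω` with a plaquette, which shares with `ω`
either one edge, or three edges, or two adjacent edges. -/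
def ElemMove (w : ℤ) (ω ω' : Set (Sym2 Pt)) : Prop :=
  IsPolygon w ω ∧ IsPolygon w ω' ∧ ∃ (v : Pt) (i j : Fin 3), i ≠ j ∧
    ω' = symmDiff ω (plaquette v i j) ∧
    ((ω ∩ plaquette v i j).ncard = 1 ∨ (ω ∩ plaquette v i j).ncard = 3 ∨
      ∃ x y z : Pt, x ≠ z ∧ ω ∩ plaquette v i j = {s(x, y), s(y, z)})

/-- Two edge sets are in the same ergodicity class of the BFACF algorithm in the slab
`0 ≤ z ≤ w`: they are related by the equivalence relation generated by elementary moves. -/
def SameClass (w : ℤ) (ω ω' : Set (Sym2 Pt)) : Prop := Relation.EqvGen (ElemMove w) ω ω'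

/-- The inclusion of the cubic lattice in three-dimensional space. -/
def toSpace (u : Pt) : ℝ × ℝ × ℝ := (u.1, u.2.1, u.2.2)

/-- The subset of three-dimensional space formed by the edges of `ω`, viewed as straight
segments. -/
def carrier (ω : Set (Sym2 Pt)) : Set (ℝ × ℝ × ℝ) :=
  {p | ∃ u v : Pt, s(u, v) ∈ ω ∧ p ∈ segment ℝ (toSpace u) (toSpace v)}

/-- Two subsets of three-dimensional space are ambient isotopic: there is a continuous family
`H t` of homeomorphisms of the space starting at the identity whose time one map carries the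
first onto the second. -/
def AmbientIsotopic (A B : Set (ℝ × ℝ × ℝ)) : Prop :=
  ∃ H : ℝ → ℝ × ℝ × ℝ → ℝ × ℝ × ℝ, Continuous (fun q : ℝ × (ℝ × ℝ × ℝ) => H q.1 q.2) ∧
    (∀ t, IsHomeomorph (H t)) ∧ H 0 = id ∧ H 1 '' A = B

/-- Two polygons have the same knot type: the knots they form are ambient isotopic. -/
def SameKnotType (ω ω' : Set (Sym2 Pt)) : Prop := AmbientIsotopic (carrier ω) (carrier ω')

end Pool.Agent.Lib.MP_dd2c10_pr
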