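import Mathlib
import Pool.Agent.Lib.MP_dd2c10_pr.Defs

/-!
# Local structure of polygons and of elementary moves
-/

namespace Pool.Agent.Lib.MP_dd2c10_pr

/-- Local structure of a polygon of the slab of width one. -/
structure Good (ω : Set (Sym2 Pt)) : Prop where
  adj : ∀ u v, s(u, v) ∈ ω → cubic.Adj u v
  slab : ∀ u v, s(u, v) ∈ ω → 0 ≤ u.2.2 ∧ u.2.2 ≤ 1
  deg : ∀ u v, s(u, v) ∈ ω → ∃ x y, x ≠ y ∧ ∀ z, s(u, z) ∈ ω ↔ z = x ∨ z = y

theorem good_of_polygon {ω : Set (Sym2 Pt)} (h : IsPolygon 1 ω) : Good ω := by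
  obtain ⟨v, c, hc, hs, rfl⟩ := h
  refine ⟨fun u v h => c.adj_of_mem_edges h, fun u v h => hs u (c.fst_mem_support_of_mem_edges h),
    fun u v h => ?_⟩
  have hu := c.fst_mem_support_of_mem_edges h
  have h2 := hc.ncard_neighborSet_toSubgraph_eq_two hu
  obtain ⟨x, y, hxy, hset⟩ := Set.ncard_eq_two.mp h2
  refine ⟨x, y, hxy, fun z => ?_⟩
  have : s(u, z) ∈ c.edges ↔ z ∈ c.toSubgraph.neighborSet u := by
    rw [SimpleGraph.Subgraph.mem_neighborSet, SimpleGraph.Walk.adj_toSubgraph_iff_mem_edges]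
  rw [Set.mem_ofPred_eq, this, hset]
  simp

theorem Good.not_three {ω : Set (Sym2 Pt)} (h : Good ω) {u a b c : Pt} (ha : s(u, a) ∈ ω)
    (hb : s(u, b) ∈ ω) (hc : s(u, c) ∈ ω) (hab : a ≠ b) (hac : a ≠ c) (hbc : b ≠ c) : False := by
  obtain ⟨x, y, hxy, hz⟩ := h.deg u a ha
  rw [hz] at ha hb hc
  rcases ha with rfl | rfl <;> rcases hb with rfl | rfl <;> rcases hc with rfl | rfl <;>
    simp_all

/-- The data of an elementary move across the square with consecutive corners `A B C D`. -/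
structure MoveData (ω ω' : Set (Sym2 Pt)) (A B C D : Pt) : Prop where
  good : Good ω
  good' : Good ω'
  ab : A ≠ B
  ac : A ≠ C
  ad : A ≠ D
  bc : B ≠ C
  bd : B ≠ D
  cd : C ≠ D
  diff : ∀ e, e ∈ ω' ↔ ¬ (e ∈ ω ↔ (e = s(A, B) ∨ e = s(B, C) ∨ e = s(C, D) ∨ e = s(D, A)))
  pat : ¬ ((s(A, B) ∈ ω ↔ s(C, D) ∈ ω) ∧ (s(B, C) ∈ ω ↔ s(D, A) ∈ ω))

namespace MoveData

variable {ω ω' : Set (Sym2 Pt)} {A B C D : Pt}

theorem symm (h : MoveData ω ω' A B C D) : MoveData ω' ω A B C D where
  good := h.good'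
  good' := h.good
  ab := h.ab
  ac := h.ac
  ad := h.ad
  bc := h.bc
  bd := h.bd
  cd := h.cd
  diff := fun e => by
    rw [h.diff]
    tauto
  pat := by
    have hp := h.pat
    have h1 := h.diff s(A, B)
    have h2 := h.diff s(B, C)
    have h3 := h.diff s(C, D)
    have h4 := h.diff s(D, A)
    simp only [true_or, or_true, iff_true] at h1 h2 h3 h4
    rw [h1, h2, h3, h4]
    tauto

/-- Rotation of the names of the corners. -/
theorem rot (h : MoveData ω ω' A B C D) : MoveData ω ω' B C D A where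
  good := h.good
  good' := h.good'
  ab := h.bc
  ac := h.bd
  ad := h.ab.symm
  bc := h.cd
  bd := h.ac.symm
  cd := h.ad.symm
  diff := fun e => by
    rw [h.diff]
    tauto
  pat := by
    have hp := h.pat
    tauto

/-- Reversal of the names of the corners. -/
theorem rev (h : MoveData ω ω' A B C D) : MoveData ω ω' A D C B where
  good := h.good
  good' := h.good'
  ab := h.ad
  ac := h.ac
  ad := h.ab
  bc := h.cd.symm
  bd := h.bd.symm
  cd := h.bc.symm
  diff := fun e => by
    rw [h.diff, Sym2.eq_swap (a := A) (b := D), Sym2.eq_swap (a := D) (b := C),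
      Sym2.eq_swap (a := C) (b := B), Sym2.eq_swap (a := B) (b := A)]
    tauto
  pat := by
    have hp := h.pat
    rw [Sym2.eq_swap (a := A) (b := D), Sym2.eq_swap (a := D) (b := C),
      Sym2.eq_swap (a := C) (b := B), Sym2.eq_swap (a := B) (b := A)]
    tauto

/-- A corner of the square which lies on the polygon is an endpoint of an edge of the polygon on
the boundary of the square. -/
theorem corner (h : MoveData ω ω' A B C D) {v : Pt} (hv : s(A, v) ∈ ω) :
    s(A, B) ∈ ω ∨ s(D, A) ∈ ω := by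
  by_contra hcon
  push Not at hcon
  obtain ⟨h1, h2⟩ := hcon
  have h1' : s(A, B) ∈ ω' := by
    rw [h.diff]; simp [h1]
  have h2' : s(A, D) ∈ ω' := by
    rw [h.diff, Sym2.eq_swap (a := A) (b := D)]
    simp [h2]
  have hvB : v ≠ B := by rintro rfl; exact h1 hv
  have hvD : v ≠ D := by rintro rfl; rw [Sym2.eq_swap] at hv; exact h2 hv
  have h3' : s(A, v) ∈ ω' := by
    rw [h.diff]
    intro hcon
    rcases hcon.mp hv with he | he | he | he
    · rw [Sym2.eq_iff] at he
      rcases he with ⟨-, he⟩ | ⟨he, -⟩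
      · exact hvB he
      · exact h.ab he
    · rw [Sym2.eq_iff] at he
      rcases he with ⟨he, -⟩ | ⟨he, -⟩
      · exact h.ab he
      · exact h.ac he
    · rw [Sym2.eq_iff] at he
      rcases he with ⟨he, -⟩ | ⟨he, -⟩
      · exact h.ac he
      · exact h.ad he
    · rw [Sym2.eq_iff] at he
      rcases he with ⟨he, -⟩ | ⟨-, he⟩
      · exact h.ad he
      · exact hvD he
  exact h.good'.not_three h1' h2' h3' h.bd (Ne.symm hvB) (Ne.symm hvD)

end MoveData

theorem sym2_inter_pattern {ω : Set (Sym2 Pt)} {A B C D : Pt} (ab : A ≠ B) (ac : A ≠ C)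
    (ad : A ≠ D) (bc : B ≠ C) (bd : B ≠ D) (cd : C ≠ D)
    (h : (ω ∩ {s(A, B), s(B, C), s(C, D), s(D, A)}).ncard = 1 ∨
      (ω ∩ {s(A, B), s(B, C), s(C, D), s(D, A)}).ncard = 3 ∨
      ∃ x y z : Pt, x ≠ z ∧ ω ∩ {s(A, B), s(B, C), s(C, D), s(D, A)} = {s(x, y), s(y, z)}) :
    ¬ ((s(A, B) ∈ ω ↔ s(C, D) ∈ ω) ∧ (s(B, C) ∈ ω ↔ s(D, A) ∈ ω)) := by
  have e12 : s(A, B) ≠ s(B, C) := by
    rw [Ne, Sym2.eq_iff]; rintro (⟨h1, -⟩ | ⟨h1, -⟩)
    · exact ab h1
    · exact ac h1
  have e13 : s(A, B) ≠ s(C, D) := by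
    rw [Ne, Sym2.eq_iff]; rintro (⟨h1, -⟩ | ⟨h1, -⟩)
    · exact ac h1
    · exact ad h1
  have e14 : s(A, B) ≠ s(D, A) := by
    rw [Ne, Sym2.eq_iff]; rintro (⟨h1, -⟩ | ⟨-, h1⟩)
    · exact ad h1
    · exact bd h1
  have e23 : s(B, C) ≠ s(C, D) := by
    rw [Ne, Sym2.eq_iff]; rintro (⟨h1, -⟩ | ⟨h1, -⟩)
    · exact bc h1
    · exact bd h1
  have e24 : s(B, C) ≠ s(D, A) := by
    rw [Ne, Sym2.eq_iff]; rintro (⟨h1, -⟩ | ⟨h1, -⟩)
    · exact bd h1
    · exact ab.symm h1
  have e34 : s(C, D) ≠ s(D, A) := by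
    rw [Ne, Sym2.eq_iff]; rintro (⟨h1, -⟩ | ⟨h1, -⟩)
    · exact cd h1
    · exact ac.symm h1
  rintro ⟨h13, h24⟩
  -- the intersection is one of four sets
  by_cases h1 : s(A, B) ∈ ω <;> by_cases h2 : s(B, C) ∈ ω
  · have h3 := h13.mp h1
    have h4 := h24.mp h2
    have hset : ω ∩ {s(A, B), s(B, C), s(C, D), s(D, A)}
        = {s(A, B), s(B, C), s(C, D), s(D, A)} := by
      ext e; constructor
      · exact fun he => he.2
      · intro he
        refine ⟨?_, he⟩
        rcases he with rfl | rfl | rfl | rfl <;> assumption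
    rw [hset] at h
    have hcard : ({s(A, B), s(B, C), s(C, D), s(D, A)} : Set (Sym2 Pt)).ncard = 4 := by
      rw [Set.ncard_insert_of_notMem (by simp [e12, e13, e14]),
        Set.ncard_insert_of_notMem (by simp [e23, e24]), Set.ncard_pair e34]
    rcases h with h | h | ⟨x, y, z, hxz, h⟩
    · omega
    · omega
    · rw [h] at hcard
      have := Set.ncard_insert_le s(x, y) ({s(y, z)} : Set (Sym2 Pt))
      rw [Set.ncard_singleton] at this
      omega
  · have h3 := h13.mp h1
    have h4 : s(D, A) ∉ ω := fun hh => h2 (h24.mpr hh)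
    have hset : ω ∩ {s(A, B), s(B, C), s(C, D), s(D, A)} = {s(A, B), s(C, D)} := by
      ext e; constructor
      · rintro ⟨he, rfl | rfl | rfl | rfl⟩
        · exact Or.inl rfl
        · exact absurd he h2
        · exact Or.inr rfl
        · exact absurd he h4
      · rintro (rfl | rfl)
        · exact ⟨h1, Or.inl rfl⟩
        · exact ⟨h3, Or.inr (Or.inr (Or.inl rfl))⟩
    rw [hset, Set.ncard_pair e13] at h
    rcases h with h | h | ⟨x, y, z, hxz, h⟩
    · omega
    · omega
    · have hx : s(x, y) ∈ ({s(A, B), s(C, D)} : Set (Sym2 Pt)) := by rw [h]; exact Or.inl rfl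
      have hz : s(y, z) ∈ ({s(A, B), s(C, D)} : Set (Sym2 Pt)) := by rw [h]; exact Or.inr rfl
      have hne : s(x, y) ≠ s(y, z) := by
        intro hh
        rw [hh, Set.pair_eq_singleton] at h
        have := congrArg Set.ncard h
        rw [Set.ncard_pair e13, Set.ncard_singleton] at this
        omega
      simp only [Set.mem_insert_iff, Set.mem_singleton_iff] at hx hz
      rcases hx with hx | hx <;> rcases hz with hz | hz
      · exact hne (hx.trans hz.symm)
      · have y1 : y ∈ s(A, B) := by rw [← hx]; simp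
        have y2 : y ∈ s(C, D) := by rw [← hz]; simp
        simp only [Sym2.mem_iff] at y1 y2
        rcases y1 with rfl | rfl <;> rcases y2 with y2 | y2
        · exact ac y2
        · exact ad y2
        · exact bc y2
        · exact bd y2
      · have y1 : y ∈ s(C, D) := by rw [← hx]; simp
        have y2 : y ∈ s(A, B) := by rw [← hz]; simp
        simp only [Sym2.mem_iff] at y1 y2
        rcases y2 with rfl | rfl <;> rcases y1 with y2 | y2
        · exact ac y2
        · exact ad y2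
        · exact bc y2
        · exact bd y2
      · exact hne (hx.trans hz.symm)
  · have h3 : s(C, D) ∉ ω := fun hh => h1 (h13.mpr hh)
    have h4 := h24.mp h2
    have hset : ω ∩ {s(A, B), s(B, C), s(C, D), s(D, A)} = {s(B, C), s(D, A)} := by
      ext e; constructor
      · rintro ⟨he, rfl | rfl | rfl | rfl⟩
        · exact absurd he h1
        · exact Or.inl rfl
        · exact absurd he h3
        · exact Or.inr rfl
      · rintro (rfl | rfl)
        · exact ⟨h2, Or.inr (Or.inl rfl)⟩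
        · exact ⟨h4, Or.inr (Or.inr (Or.inr rfl))⟩
    rw [hset, Set.ncard_pair e24] at h
    rcases h with h | h | ⟨x, y, z, hxz, h⟩
    · omega
    · omega
    · have hx : s(x, y) ∈ ({s(B, C), s(D, A)} : Set (Sym2 Pt)) := by rw [h]; exact Or.inl rfl
      have hz : s(y, z) ∈ ({s(B, C), s(D, A)} : Set (Sym2 Pt)) := by rw [h]; exact Or.inr rfl
      have hne : s(x, y) ≠ s(y, z) := by
        intro hh
        rw [hh, Set.pair_eq_singleton] at h
        have := congrArg Set.ncard h
        rw [Set.ncard_pair e24, Set.ncard_singleton] at this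
        omega
      simp only [Set.mem_insert_iff, Set.mem_singleton_iff] at hx hz
      rcases hx with hx | hx <;> rcases hz with hz | hz
      · exact hne (hx.trans hz.symm)
      · have y1 : y ∈ s(B, C) := by rw [← hx]; simp
        have y2 : y ∈ s(D, A) := by rw [← hz]; simp
        simp only [Sym2.mem_iff] at y1 y2
        rcases y1 with rfl | rfl <;> rcases y2 with y2 | y2
        · exact bd y2
        · exact ab y2.symm
        · exact cd y2
        · exact ac y2.symm
      · have y1 : y ∈ s(D, A) := by rw [← hx]; simp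
        have y2 : y ∈ s(B, C) := by rw [← hz]; simp
        simp only [Sym2.mem_iff] at y1 y2
        rcases y2 with rfl | rfl <;> rcases y1 with y2 | y2
        · exact bd y2
        · exact ab y2.symm
        · exact cd y2
        · exact ac y2.symm
      · exact hne (hx.trans hz.symm)
  · have h3 : s(C, D) ∉ ω := fun hh => h1 (h13.mpr hh)
    have h4 : s(D, A) ∉ ω := fun hh => h2 (h24.mpr hh)
    have hset : ω ∩ {s(A, B), s(B, C), s(C, D), s(D, A)} = ∅ := by
      ext e; constructor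
      · rintro ⟨he, rfl | rfl | rfl | rfl⟩ <;> exact absurd he (by assumption)
      · intro he; exact absurd he (Set.notMem_empty e)
    rw [hset] at h
    rcases h with h | h | ⟨x, y, z, hxz, h⟩
    · simp at h
    · simp at h
    · have : s(x, y) ∈ (∅ : Set (Sym2 Pt)) := by rw [h]; exact Or.inl rfl
      exact this

/-- The cases of an elementary move in the slab of width one, with explicit coordinates. -/
theorem ElemMove.cases {ω ω' : Set (Sym2 Pt)} (h : ElemMove 1 ω ω') :
    ∃ x y z : ℤ, MoveData ω ω' (x, y, z) (x + 1, y, z) (x + 1, y + 1, z) (x, y + 1, z) ∨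
      MoveData ω ω' (x, y, z) (x + 1, y, z) (x + 1, y, z + 1) (x, y, z + 1) ∨
      MoveData ω ω' (x, y, z) (x, y + 1, z) (x, y + 1, z + 1) (x, y, z + 1) := by
  obtain ⟨h1, h2, ⟨x, y, z⟩, i, j, hij, hdiff, hpat⟩ := h
  have g1 := good_of_polygon h1
  have g2 := good_of_polygon h2
  have key : ∀ A B C D : Pt, A ≠ B → A ≠ C → A ≠ D → B ≠ C → B ≠ D → C ≠ D →
      plaquette (x, y, z) i j = {s(A, B), s(B, C), s(C, D), s(D, A)} → MoveData ω ω' A B C D := by
    intro A B C D ab ac ad bc bd cd hp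
    rw [hp] at hdiff hpat
    refine ⟨g1, g2, ab, ac, ad, bc, bd, cd, fun e => ?_, sym2_inter_pattern ab ac ad bc bd cd hpat⟩
    rw [hdiff, Set.mem_symmDiff]
    simp only [Set.mem_insert_iff, Set.mem_singleton_iff]
    tauto
  refine ⟨x, y, z, ?_⟩
  fin_cases i <;> fin_cases j <;> try exact absurd rfl hij
  · refine Or.inl (key _ _ _ _ ?_ ?_ ?_ ?_ ?_ ?_ ?_) <;> simp [plaquette, unitVec]
  · refine Or.inr (Or.inl (key _ _ _ _ ?_ ?_ ?_ ?_ ?_ ?_ ?_)) <;> simp [plaquette, unitVec]
  · refine Or.inl (MoveData.rev (key _ _ _ _ ?_ ?_ ?_ ?_ ?_ ?_ ?_)) <;> simp [plaquette, unitVec]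
  · refine Or.inr (Or.inr (key _ _ _ _ ?_ ?_ ?_ ?_ ?_ ?_ ?_)) <;> simp [plaquette, unitVec]
  · refine Or.inr (Or.inl (MoveData.rev (key _ _ _ _ ?_ ?_ ?_ ?_ ?_ ?_ ?_))) <;>
      simp [plaquette, unitVec]
  · refine Or.inr (Or.inr (MoveData.rev (key _ _ _ _ ?_ ?_ ?_ ?_ ?_ ?_ ?_))) <;>
      simp [plaquette, unitVec]

end Pool.Agent.Lib.MP_dd2c10_pr
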