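import Mathlib
import Pool.Agent.Lib.MP_dd2c10_pr.Moves

/-!
# Colourings of polygons in the slab of width one

The lower layer is thought of as shifted by a small positive amount in both horizontal directions.
Then a lower edge crosses under an upper edge exactly in the situations described below, and a
colouring is constant along the polygon except that the colour of the lower strand is changed by
the operation `op` when it passes under the upper strand.
-/

namespace Pool.Agent.Lib.MP_dd2c10_pr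

set_option linter.unusedSimpArgs false

variable {X : Type*}

theorem op_fix {op : X → X → X} (h1 : ∀ a, op a a = a) (h2 : ∀ b a, op b (op b a) = a) {a b : X}
    (h : b = op b a) : a = b := by
  have := h2 b a
  rw [← h, h1] at this
  exact this.symm

/-- Colourings of an edge set by a set `X` with an operation `op`. -/
structure IsColoring (op : X → X → X) (ω : Set (Sym2 Pt)) (c : Pt → X) : Prop where
  vert : ∀ a b : ℤ, s(((a, b, 0) : Pt), ((a, b, 1) : Pt)) ∈ ω → c (a, b, 0) = c (a, b, 1)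
  ux : ∀ a b : ℤ, s(((a, b, 1) : Pt), ((a + 1, b, 1) : Pt)) ∈ ω → c (a, b, 1) = c (a + 1, b, 1)
  uy : ∀ a b : ℤ, s(((a, b, 1) : Pt), ((a, b + 1, 1) : Pt)) ∈ ω → c (a, b, 1) = c (a, b + 1, 1)
  lx1 : ∀ a b : ℤ, s(((a, b, 0) : Pt), ((a + 1, b, 0) : Pt)) ∈ ω →
    s(((a + 1, b, 1) : Pt), ((a + 1, b + 1, 1) : Pt)) ∈ ω →
    c (a + 1, b, 0) = op (c (a + 1, b, 1)) (c (a, b, 0))
  lx2 : ∀ a b : ℤ, s(((a, b, 0) : Pt), ((a + 1, b, 0) : Pt)) ∈ ω →
    s(((a + 1, b, 1) : Pt), ((a + 1, b + 1, 1) : Pt)) ∉ ω → c (a + 1, b, 0) = c (a, b, 0)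
  ly1 : ∀ a b : ℤ, s(((a, b, 0) : Pt), ((a, b + 1, 0) : Pt)) ∈ ω →
    s(((a, b + 1, 1) : Pt), ((a + 1, b + 1, 1) : Pt)) ∈ ω →
    c (a, b + 1, 0) = op (c (a, b + 1, 1)) (c (a, b, 0))
  ly2 : ∀ a b : ℤ, s(((a, b, 0) : Pt), ((a, b + 1, 0) : Pt)) ∈ ω →
    s(((a, b + 1, 1) : Pt), ((a + 1, b + 1, 1) : Pt)) ∉ ω → c (a, b + 1, 0) = c (a, b, 0)

/-- The vertices of an edge set. -/
def Vtx (ω : Set (Sym2 Pt)) (u : Pt) : Prop := ∃ v, s(u, v) ∈ ω

theorem corners_const {cA cB cC cD : X} {m1 m2 m3 m4 VA VB VC VD : Prop} (h1 : m1 → cA = cB)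
    (h2 : m2 → cB = cC) (h3 : m3 → cC = cD) (h4 : m4 → cD = cA) (a : VA → m1 ∨ m4)
    (b : VB → m1 ∨ m2) (c : VC → m2 ∨ m3) (d : VD → m3 ∨ m4)
    (pat : ¬ ((m1 ↔ m3) ∧ (m2 ↔ m4))) :
    ∃ s, (VA → cA = s) ∧ (VB → cB = s) ∧ (VC → cC = s) ∧ (VD → cD = s) := by
  by_cases e1 : m1 <;> by_cases e2 : m2 <;> by_cases e3 : m3 <;> by_cases e4 : m4 <;>
    simp only [e1, e2, e3, e4, forall_const, true_or, or_true, or_self, imp_false, iff_true,
      iff_false, not_true_eq_false, not_false_eq_true, and_self,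
      and_true, and_false, IsEmpty.forall_iff, implies_true] at h1 h2 h3 h4 a b c d pat
  · exact ⟨cA, fun _ => rfl, fun _ => h1.symm, fun _ => (h1.trans h2).symm,
      fun _ => (h1.trans (h2.trans h3)).symm⟩
  · exact ⟨cA, fun _ => rfl, fun _ => h1.symm, fun _ => (h1.trans h2).symm, fun _ => h4⟩
  · exact ⟨cA, fun _ => rfl, fun _ => h1.symm, fun _ => (h1.trans h2).symm,
      fun h => absurd h d⟩
  · exact ⟨cA, fun _ => rfl, fun _ => h1.symm, fun _ => h3.trans h4, fun _ => h4⟩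
  · exact ⟨cA, fun _ => rfl, fun _ => h1.symm, fun h => absurd h c, fun _ => h4⟩
  · exact ⟨cA, fun _ => rfl, fun _ => h1.symm, fun h => absurd h c, fun h => absurd h d⟩
  · exact ⟨cB, fun _ => (h2.trans (h3.trans h4)).symm, fun _ => rfl, fun _ => h2.symm,
      fun _ => (h2.trans h3).symm⟩
  · exact ⟨cB, fun h => absurd h a, fun _ => rfl, fun _ => h2.symm,
      fun _ => (h2.trans h3).symm⟩
  · exact ⟨cB, fun h => absurd h a, fun _ => rfl, fun _ => h2.symm, fun h => absurd h d⟩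
  · exact ⟨cC, fun _ => (h3.trans h4).symm, fun h => absurd h b, fun _ => rfl,
      fun _ => h3.symm⟩
  · exact ⟨cC, fun h => absurd h a, fun h => absurd h b, fun _ => rfl, fun _ => h3.symm⟩
  · exact ⟨cD, fun _ => h4.symm, fun h => absurd h b, fun h => absurd h c, fun _ => rfl⟩

namespace MoveData

variable {ω ω' : Set (Sym2 Pt)} {A B C D : Pt}

theorem cornerA (h : MoveData ω ω' A B C D) : Vtx ω A → s(A, B) ∈ ω ∨ s(D, A) ∈ ω :=
  fun ⟨_, hv⟩ => h.corner hv

theorem cornerB (h : MoveData ω ω' A B C D) : Vtx ω B → s(A, B) ∈ ω ∨ s(B, C) ∈ ω :=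
  fun ⟨_, hv⟩ => (h.rot.corner hv).symm

theorem cornerC (h : MoveData ω ω' A B C D) : Vtx ω C → s(B, C) ∈ ω ∨ s(C, D) ∈ ω :=
  fun ⟨_, hv⟩ => (h.rot.rot.corner hv).symm

theorem cornerD (h : MoveData ω ω' A B C D) : Vtx ω D → s(C, D) ∈ ω ∨ s(D, A) ∈ ω :=
  fun ⟨_, hv⟩ => (h.rot.rot.rot.corner hv).symm

/-- There is a corner which lies on both polygons. -/
theorem exists_corner (h : MoveData ω ω' A B C D) :
    ∃ r, (r = A ∨ r = B ∨ r = C ∨ r = D) ∧ Vtx ω r ∧ Vtx ω' r := by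
  have hp := h.pat
  have d1 := h.diff s(A, B)
  have d2 := h.diff s(B, C)
  have d3 := h.diff s(C, D)
  have d4 := h.diff s(D, A)
  simp only [true_or, or_true, iff_true] at d1 d2 d3 d4
  by_cases e1 : s(A, B) ∈ ω
  · by_cases e2 : s(B, C) ∈ ω
    · by_cases e3 : s(C, D) ∈ ω
      · have e4 : s(D, A) ∉ ω := fun e4 => hp (by tauto)
        exact ⟨A, by tauto, ⟨B, e1⟩, ⟨D, by rw [Sym2.eq_swap]; exact d4.mpr e4⟩⟩
      · exact ⟨C, by tauto, ⟨B, by rw [Sym2.eq_swap]; exact e2⟩, ⟨D, d3.mpr e3⟩⟩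
    · exact ⟨B, by tauto, ⟨A, by rw [Sym2.eq_swap]; exact e1⟩, ⟨C, d2.mpr e2⟩⟩
  · by_cases e2 : s(B, C) ∈ ω
    · exact ⟨B, by tauto, ⟨C, e2⟩, ⟨A, by rw [Sym2.eq_swap]; exact d1.mpr e1⟩⟩
    · by_cases e3 : s(C, D) ∈ ω
      · exact ⟨C, by tauto, ⟨D, e3⟩, ⟨B, by rw [Sym2.eq_swap]; exact d2.mpr e2⟩⟩
      · have e4 : s(D, A) ∈ ω := by by_contra e4; exact hp (by tauto)
        exact ⟨A, by tauto, ⟨D, by rw [Sym2.eq_swap]; exact e4⟩, ⟨B, d1.mpr e1⟩⟩

end MoveData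

/-- The four corners of the upper unit square at `(x, y)`. -/
def upSq (x y : ℤ) (u : Pt) : Prop :=
  u = (x, y, 1) ∨ u = (x + 1, y, 1) ∨ u = (x + 1, y + 1, 1) ∨ u = (x, y + 1, 1)

instance (x y : ℤ) (u : Pt) : Decidable (upSq x y u) := by unfold upSq; infer_instance

/-- Transformation of colourings under an elementary move across an upper square. -/
def PhiUp (op : X → X → X) (x y : ℤ) (r : Pt) (c : Pt → X) (u : Pt) : X :=
  if upSq x y u then c r else if u = (x, y, 0) then op (c r) (c u) else c u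

section Up

variable {op : X → X → X} {ω ω' : Set (Sym2 Pt)} {x y : ℤ}

theorem up_ux (hd : MoveData ω ω' (x, y, 1) (x + 1, y, 1) (x + 1, y + 1, 1) (x, y + 1, 1))
    (a b : ℤ) : s(((a, b, 1) : Pt), ((a + 1, b, 1) : Pt)) ∈ ω' ↔
    ¬ (s(((a, b, 1) : Pt), ((a + 1, b, 1) : Pt)) ∈ ω ↔ (a = x ∧ (b = y ∨ b = y + 1))) := by
  rw [hd.diff]
  refine not_congr (iff_congr Iff.rfl ?_)
  simp only [Sym2.eq_iff, Prod.mk.injEq, and_true]
  omega

theorem up_uy (hd : MoveData ω ω' (x, y, 1) (x + 1, y, 1) (x + 1, y + 1, 1) (x, y + 1, 1))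
    (a b : ℤ) : s(((a, b, 1) : Pt), ((a, b + 1, 1) : Pt)) ∈ ω' ↔
    ¬ (s(((a, b, 1) : Pt), ((a, b + 1, 1) : Pt)) ∈ ω ↔ (b = y ∧ (a = x ∨ a = x + 1))) := by
  rw [hd.diff]
  refine not_congr (iff_congr Iff.rfl ?_)
  simp only [Sym2.eq_iff, Prod.mk.injEq, and_true]
  omega

theorem up_other (hd : MoveData ω ω' (x, y, 1) (x + 1, y, 1) (x + 1, y + 1, 1) (x, y + 1, 1))
    (a b : ℤ) (v : Pt) : s(((a, b, 0) : Pt), v) ∈ ω' ↔ s(((a, b, 0) : Pt), v) ∈ ω := by
  rw [hd.diff]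
  obtain ⟨v1, v2, v3⟩ := v
  have : ¬ (s(((a, b, 0) : Pt), ((v1, v2, v3) : Pt)) = s((x, y, 1), (x + 1, y, 1)) ∨
    s(((a, b, 0) : Pt), ((v1, v2, v3) : Pt)) = s((x + 1, y, 1), (x + 1, y + 1, 1)) ∨
    s(((a, b, 0) : Pt), ((v1, v2, v3) : Pt)) = s((x + 1, y + 1, 1), (x, y + 1, 1)) ∨
    s(((a, b, 0) : Pt), ((v1, v2, v3) : Pt)) = s((x, y + 1, 1), (x, y, 1))) := by
    simp only [Sym2.eq_iff, Prod.mk.injEq, and_true]
    omega
  tauto

theorem up_const (hd : MoveData ω ω' (x, y, 1) (x + 1, y, 1) (x + 1, y + 1, 1) (x, y + 1, 1))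
    {c : Pt → X} (hc : IsColoring op ω c) {r : Pt} (hr : upSq x y r) (hrV : Vtx ω r) {u : Pt}
    (hu : upSq x y u) (huV : Vtx ω u) : c u = c r := by
  obtain ⟨s, hA, hB, hC, hD⟩ := corners_const (cA := c (x, y, 1)) (cB := c (x + 1, y, 1))
    (cC := c (x + 1, y + 1, 1)) (cD := c (x, y + 1, 1)) (hc.ux x y) (hc.uy (x + 1) y)
    (fun h => (hc.ux x (y + 1) (by rw [Sym2.eq_swap]; exact h)).symm)
    (fun h => (hc.uy x y (by rw [Sym2.eq_swap]; exact h)).symm) hd.cornerA hd.cornerB hd.cornerC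
    hd.cornerD hd.pat
  have key : ∀ u, upSq x y u → Vtx ω u → c u = s := by
    rintro u (rfl | rfl | rfl | rfl) hV
    · exact hA hV
    · exact hB hV
    · exact hC hV
    · exact hD hV
  rw [key u hu huV, key r hr hrV]

/-- Transport of colourings under a move across an upper square. -/
theorem up_move (h1 : ∀ a, op a a = a) (h2 : ∀ b a, op b (op b a) = a)
    (hd : MoveData ω ω' (x, y, 1) (x + 1, y, 1) (x + 1, y + 1, 1) (x, y + 1, 1))
    {c : Pt → X} (hc : IsColoring op ω c) {r : Pt} (hr : upSq x y r) (hrV : Vtx ω r) :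
    IsColoring op ω' (PhiUp op x y r c) := by
  have hconst : ∀ u, upSq x y u → Vtx ω u → c u = c r := fun u hu huV =>
    up_const hd hc hr hrV hu huV
  have hlow : ∀ a b : ℤ, ¬ upSq x y (a, b, 0) := by
    intro a b
    unfold upSq
    simp only [Prod.mk.injEq]
    omega
  have hphi0 : PhiUp op x y r c (x, y, 0) = op (c r) (c (x, y, 0)) := by
    unfold PhiUp
    rw [if_neg (hlow x y), if_pos rfl]
  have hphiL : ∀ a b : ℤ, ¬ (a = x ∧ b = y) → PhiUp op x y r c (a, b, 0) = c (a, b, 0) := by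
    intro a b hab
    unfold PhiUp
    rw [if_neg (hlow a b), if_neg]
    simp only [Prod.mk.injEq]
    tauto
  have hphiC : ∀ u, upSq x y u → PhiUp op x y r c u = c r := by
    intro u hu
    unfold PhiUp
    rw [if_pos hu]
  have hphiU : ∀ a b : ℤ, Vtx ω (a, b, 1) → PhiUp op x y r c (a, b, 1) = c (a, b, 1) := by
    intro a b hV
    by_cases hu : upSq x y (a, b, 1)
    · rw [hphiC _ hu, hconst _ hu hV]
    · unfold PhiUp
      rw [if_neg hu, if_neg]
      simp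
  refine ⟨?_, ?_, ?_, ?_, ?_, ?_, ?_⟩
  · -- vertical edges
    intro a b hab
    rw [up_other hd] at hab
    have e1 := hc.vert a b hab
    rw [hphiU a b ⟨_, by rw [Sym2.eq_swap]; exact hab⟩]
    by_cases h : a = x ∧ b = y
    · obtain ⟨rfl, rfl⟩ := h
      rw [hphi0]
      have e2 : c (a, b, 1) = c r :=
        hconst _ (Or.inl rfl) ⟨_, by rw [Sym2.eq_swap]; exact hab⟩
      rw [e1, e2, h1]
    · rw [hphiL a b h, e1]
  · -- upper x-edges
    intro a b hab
    rw [up_ux hd] at hab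
    by_cases h : a = x ∧ (b = y ∨ b = y + 1)
    · rw [hphiC, hphiC]
      · unfold upSq; simp only [Prod.mk.injEq, and_true]; omega
      · unfold upSq; simp only [Prod.mk.injEq, and_true]; omega
    · have hab' : s(((a, b, 1) : Pt), ((a + 1, b, 1) : Pt)) ∈ ω := by tauto
      rw [hphiU _ _ ⟨_, hab'⟩, hphiU _ _ ⟨_, by rw [Sym2.eq_swap]; exact hab'⟩]
      exact hc.ux a b hab'
  · -- upper y-edges
    intro a b hab
    rw [up_uy hd] at hab
    by_cases h : b = y ∧ (a = x ∨ a = x + 1)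
    · rw [hphiC, hphiC]
      · unfold upSq; simp only [Prod.mk.injEq, and_true]; omega
      · unfold upSq; simp only [Prod.mk.injEq, and_true]; omega
    · have hab' : s(((a, b, 1) : Pt), ((a, b + 1, 1) : Pt)) ∈ ω := by tauto
      rw [hphiU _ _ ⟨_, hab'⟩, hphiU _ _ ⟨_, by rw [Sym2.eq_swap]; exact hab'⟩]
      exact hc.uy a b hab'
  · -- lower x-edges, crossing
    intro a b hab hcr
    rw [up_other hd] at hab
    rw [up_uy hd] at hcr
    by_cases h : b = y ∧ (a + 1 = x ∨ a + 1 = x + 1)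
    · have hcr' : s(((a + 1, b, 1) : Pt), ((a + 1, b + 1, 1) : Pt)) ∉ ω := by tauto
      have e1 := hc.lx2 a b hab hcr'
      have e2 : PhiUp op x y r c (a + 1, b, 1) = c r := by
        apply hphiC
        unfold upSq; simp only [Prod.mk.injEq, and_true]; omega
      obtain ⟨rfl, h | h⟩ := h
      · subst h
        rw [hphi0, e2, hphiL a b (by omega), e1]
      · obtain rfl : a = x := by omega
        rw [hphiL (a + 1) b (by omega), e2, hphi0, h2, e1]
    · have hcr' : s(((a + 1, b, 1) : Pt), ((a + 1, b + 1, 1) : Pt)) ∈ ω := by tauto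
      have e1 := hc.lx1 a b hab hcr'
      rw [hphiL (a + 1) b (by omega), hphiL a b (by omega), hphiU _ _ ⟨_, hcr'⟩, e1]
  · -- lower x-edges, no crossing
    intro a b hab hcr
    rw [up_other hd] at hab
    rw [up_uy hd, not_not] at hcr
    by_cases h : b = y ∧ (a + 1 = x ∨ a + 1 = x + 1)
    · have hcr' : s(((a + 1, b, 1) : Pt), ((a + 1, b + 1, 1) : Pt)) ∈ ω := by tauto
      have e1 := hc.lx1 a b hab hcr'
      have e2 : c (a + 1, b, 1) = c r := by
        apply hconst _ _ ⟨_, hcr'⟩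
        unfold upSq; simp only [Prod.mk.injEq, and_true]; omega
      obtain ⟨rfl, h | h⟩ := h
      · subst h
        rw [hphi0, hphiL a b (by omega), e1, e2, h2]
      · obtain rfl : a = x := by omega
        rw [hphiL (a + 1) b (by omega), hphi0, e1, e2]
    · have hcr' : s(((a + 1, b, 1) : Pt), ((a + 1, b + 1, 1) : Pt)) ∉ ω := by tauto
      have e1 := hc.lx2 a b hab hcr'
      rw [hphiL (a + 1) b (by omega), hphiL a b (by omega), e1]
  · -- lower y-edges, crossing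
    intro a b hab hcr
    rw [up_other hd] at hab
    rw [up_ux hd] at hcr
    by_cases h : a = x ∧ (b + 1 = y ∨ b + 1 = y + 1)
    · have hcr' : s(((a, b + 1, 1) : Pt), ((a + 1, b + 1, 1) : Pt)) ∉ ω := by tauto
      have e1 := hc.ly2 a b hab hcr'
      have e2 : PhiUp op x y r c (a, b + 1, 1) = c r := by
        apply hphiC
        unfold upSq; simp only [Prod.mk.injEq, and_true]; omega
      obtain ⟨rfl, h | h⟩ := h
      · subst h
        rw [hphi0, e2, hphiL a b (by omega), e1]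
      · obtain rfl : b = y := by omega
        rw [hphiL a (b + 1) (by omega), e2, hphi0, h2, e1]
    · have hcr' : s(((a, b + 1, 1) : Pt), ((a + 1, b + 1, 1) : Pt)) ∈ ω := by tauto
      have e1 := hc.ly1 a b hab hcr'
      rw [hphiL a (b + 1) (by omega), hphiL a b (by omega), hphiU _ _ ⟨_, hcr'⟩, e1]
  · -- lower y-edges, no crossing
    intro a b hab hcr
    rw [up_other hd] at hab
    rw [up_ux hd, not_not] at hcr
    by_cases h : a = x ∧ (b + 1 = y ∨ b + 1 = y + 1)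
    · have hcr' : s(((a, b + 1, 1) : Pt), ((a + 1, b + 1, 1) : Pt)) ∈ ω := by tauto
      have e1 := hc.ly1 a b hab hcr'
      have e2 : c (a, b + 1, 1) = c r := by
        apply hconst _ _ ⟨_, hcr'⟩
        unfold upSq; simp only [Prod.mk.injEq, and_true]; omega
      obtain ⟨rfl, h | h⟩ := h
      · subst h
        rw [hphi0, hphiL a b (by omega), e1, e2, h2]
      · obtain rfl : b = y := by omega
        rw [hphiL a (b + 1) (by omega), hphi0, e1, e2]
    · have hcr' : s(((a, b + 1, 1) : Pt), ((a + 1, b + 1, 1) : Pt)) ∉ ω := by tauto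
      have e1 := hc.ly2 a b hab hcr'
      rw [hphiL a (b + 1) (by omega), hphiL a b (by omega), e1]

end Up

/-- The four corners of the vertical unit square at `(x, y)` in the first direction. -/
def vxSq (x y : ℤ) (u : Pt) : Prop :=
  u = (x, y, 0) ∨ u = (x + 1, y, 0) ∨ u = (x + 1, y, 1) ∨ u = (x, y, 1)

instance (x y : ℤ) (u : Pt) : Decidable (vxSq x y u) := by unfold vxSq; infer_instance

/-- The four corners of the vertical unit square at `(x, y)` in the second direction. -/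
def vySq (x y : ℤ) (u : Pt) : Prop :=
  u = (x, y, 0) ∨ u = (x, y + 1, 0) ∨ u = (x, y + 1, 1) ∨ u = (x, y, 1)

instance (x y : ℤ) (u : Pt) : Decidable (vySq x y u) := by unfold vySq; infer_instance

/-- Transformation of colourings under an elementary move across a vertical square. -/
def PhiVx (x y : ℤ) (r : Pt) (c : Pt → X) (u : Pt) : X :=
  if vxSq x y u then c r else c u

/-- Transformation of colourings under an elementary move across a vertical square. -/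
def PhiVy (x y : ℤ) (r : Pt) (c : Pt → X) (u : Pt) : X :=
  if vySq x y u then c r else c u

section Vx

variable {op : X → X → X} {ω ω' : Set (Sym2 Pt)} {x y : ℤ}

theorem vx_ux (hd : MoveData ω ω' (x, y, 0) (x + 1, y, 0) (x + 1, y, 1) (x, y, 1))
    (a b : ℤ) : s(((a, b, 1) : Pt), ((a + 1, b, 1) : Pt)) ∈ ω' ↔
    ¬ (s(((a, b, 1) : Pt), ((a + 1, b, 1) : Pt)) ∈ ω ↔ (a = x ∧ b = y)) := by
  rw [hd.diff]
  refine not_congr (iff_congr Iff.rfl ?_)
  simp only [Sym2.eq_iff, Prod.mk.injEq, and_true, zero_ne_one, one_ne_zero, and_false, or_false,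
    false_or, false_and, true_and]
  omega

theorem vx_lx (hd : MoveData ω ω' (x, y, 0) (x + 1, y, 0) (x + 1, y, 1) (x, y, 1))
    (a b : ℤ) : s(((a, b, 0) : Pt), ((a + 1, b, 0) : Pt)) ∈ ω' ↔
    ¬ (s(((a, b, 0) : Pt), ((a + 1, b, 0) : Pt)) ∈ ω ↔ (a = x ∧ b = y)) := by
  rw [hd.diff]
  refine not_congr (iff_congr Iff.rfl ?_)
  simp only [Sym2.eq_iff, Prod.mk.injEq, and_true, zero_ne_one, one_ne_zero, and_false, or_false,
    false_or, false_and, true_and]
  omega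

theorem vx_uy (hd : MoveData ω ω' (x, y, 0) (x + 1, y, 0) (x + 1, y, 1) (x, y, 1))
    (a b : ℤ) : s(((a, b, 1) : Pt), ((a, b + 1, 1) : Pt)) ∈ ω' ↔
    s(((a, b, 1) : Pt), ((a, b + 1, 1) : Pt)) ∈ ω := by
  rw [hd.diff]
  have : ¬ (s(((a, b, 1) : Pt), ((a, b + 1, 1) : Pt)) = s((x, y, 0), (x + 1, y, 0)) ∨
    s(((a, b, 1) : Pt), ((a, b + 1, 1) : Pt)) = s((x + 1, y, 0), (x + 1, y, 1)) ∨
    s(((a, b, 1) : Pt), ((a, b + 1, 1) : Pt)) = s((x + 1, y, 1), (x, y, 1)) ∨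
    s(((a, b, 1) : Pt), ((a, b + 1, 1) : Pt)) = s((x, y, 1), (x, y, 0))) := by
    simp only [Sym2.eq_iff, Prod.mk.injEq, and_true, zero_ne_one, one_ne_zero, and_false,
      or_false, false_or, false_and, true_and]
    omega
  tauto

theorem vx_ly (hd : MoveData ω ω' (x, y, 0) (x + 1, y, 0) (x + 1, y, 1) (x, y, 1))
    (a b : ℤ) : s(((a, b, 0) : Pt), ((a, b + 1, 0) : Pt)) ∈ ω' ↔
    s(((a, b, 0) : Pt), ((a, b + 1, 0) : Pt)) ∈ ω := by
  rw [hd.diff]
  have : ¬ (s(((a, b, 0) : Pt), ((a, b + 1, 0) : Pt)) = s((x, y, 0), (x + 1, y, 0)) ∨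
    s(((a, b, 0) : Pt), ((a, b + 1, 0) : Pt)) = s((x + 1, y, 0), (x + 1, y, 1)) ∨
    s(((a, b, 0) : Pt), ((a, b + 1, 0) : Pt)) = s((x + 1, y, 1), (x, y, 1)) ∨
    s(((a, b, 0) : Pt), ((a, b + 1, 0) : Pt)) = s((x, y, 1), (x, y, 0))) := by
    simp only [Sym2.eq_iff, Prod.mk.injEq, and_true, zero_ne_one, one_ne_zero, and_false,
      or_false, false_or, false_and, true_and]
    omega
  tauto

theorem vx_vert (hd : MoveData ω ω' (x, y, 0) (x + 1, y, 0) (x + 1, y, 1) (x, y, 1))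
    (a b : ℤ) : s(((a, b, 0) : Pt), ((a, b, 1) : Pt)) ∈ ω' ↔
    ¬ (s(((a, b, 0) : Pt), ((a, b, 1) : Pt)) ∈ ω ↔ (b = y ∧ (a = x ∨ a = x + 1))) := by
  rw [hd.diff]
  refine not_congr (iff_congr Iff.rfl ?_)
  simp only [Sym2.eq_iff, Prod.mk.injEq, and_true, zero_ne_one, one_ne_zero, and_false, or_false,
    false_or, false_and, true_and]
  omega

theorem vx_const (h1 : ∀ a, op a a = a) (h2 : ∀ b a, op b (op b a) = a)
    (hd : MoveData ω ω' (x, y, 0) (x + 1, y, 0) (x + 1, y, 1) (x, y, 1))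
    {c : Pt → X} (hc : IsColoring op ω c) {r : Pt} (hr : vxSq x y r) (hrV : Vtx ω r) {u : Pt}
    (hu : vxSq x y u) (huV : Vtx ω u) : c u = c r := by
  have hBC : s(((x + 1, y, 0) : Pt), ((x + 1, y, 1) : Pt)) ∈ ω →
      c (x + 1, y, 0) = c (x + 1, y, 1) := hc.vert (x + 1) y
  have hCD : s(((x + 1, y, 1) : Pt), ((x, y, 1) : Pt)) ∈ ω → c (x + 1, y, 1) = c (x, y, 1) :=
    fun h => (hc.ux x y (by rw [Sym2.eq_swap]; exact h)).symm
  have hDA : s(((x, y, 1) : Pt), ((x, y, 0) : Pt)) ∈ ω → c (x, y, 1) = c (x, y, 0) :=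
    fun h => (hc.vert x y (by rw [Sym2.eq_swap]; exact h)).symm
  have hAB : s(((x, y, 0) : Pt), ((x + 1, y, 0) : Pt)) ∈ ω → c (x, y, 0) = c (x + 1, y, 0) := by
    intro h
    by_cases hcr : s(((x + 1, y, 1) : Pt), ((x + 1, y + 1, 1) : Pt)) ∈ ω
    · have e1 := hc.lx1 x y h hcr
      rcases hd.cornerC ⟨_, hcr⟩ with m2 | m3
      · rw [← hBC m2] at e1
        exact op_fix h1 h2 e1
      · by_cases m2 : s(((x + 1, y, 0) : Pt), ((x + 1, y, 1) : Pt)) ∈ ω
        · rw [← hBC m2] at e1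
          exact op_fix h1 h2 e1
        · have m4 : s(((x, y, 1) : Pt), ((x, y, 0) : Pt)) ∈ ω := by
            by_contra m4
            exact hd.pat ⟨⟨fun _ => m3, fun _ => h⟩, ⟨fun hh => absurd hh m2,
              fun hh => absurd hh m4⟩⟩
          rw [hCD m3, hDA m4, h1] at e1
          exact e1.symm
    · exact (hc.lx2 x y h hcr).symm
  obtain ⟨s, hA, hB, hC, hD⟩ := corners_const hAB hBC hCD hDA hd.cornerA hd.cornerB hd.cornerC
    hd.cornerD hd.pat
  have key : ∀ u, vxSq x y u → Vtx ω u → c u = s := by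
    rintro u (rfl | rfl | rfl | rfl) hV
    · exact hA hV
    · exact hB hV
    · exact hC hV
    · exact hD hV
  rw [key u hu huV, key r hr hrV]

theorem vx_move (h1 : ∀ a, op a a = a) (h2 : ∀ b a, op b (op b a) = a)
    (hd : MoveData ω ω' (x, y, 0) (x + 1, y, 0) (x + 1, y, 1) (x, y, 1))
    {c : Pt → X} (hc : IsColoring op ω c) {r : Pt} (hr : vxSq x y r) (hrV : Vtx ω r) :
    IsColoring op ω' (PhiVx x y r c) := by
  have hphiC : ∀ u, vxSq x y u → PhiVx x y r c u = c r := by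
    intro u hu
    unfold PhiVx
    rw [if_pos hu]
  have hphiV : ∀ u, Vtx ω u → PhiVx x y r c u = c u := by
    intro u hV
    unfold PhiVx
    by_cases hu : vxSq x y u
    · rw [if_pos hu, vx_const h1 h2 hd hc hr hrV hu hV]
    · rw [if_neg hu]
  have hl : ∀ {u v : Pt}, s(u, v) ∈ ω → PhiVx x y r c u = c u := fun h => hphiV _ ⟨_, h⟩
  have hr' : ∀ {u v : Pt}, s(u, v) ∈ ω → PhiVx x y r c v = c v := fun h =>
    hphiV _ ⟨_, by rw [Sym2.eq_swap]; exact h⟩
  refine ⟨?_, ?_, ?_, ?_, ?_, ?_, ?_⟩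
  · intro a b hab
    rw [vx_vert hd] at hab
    by_cases h : b = y ∧ (a = x ∨ a = x + 1)
    · rw [hphiC, hphiC]
      · unfold vxSq; simp only [Prod.mk.injEq, and_true, zero_ne_one, one_ne_zero, and_false]; omega
      · unfold vxSq; simp only [Prod.mk.injEq, and_true, zero_ne_one, one_ne_zero, and_false]; omega
    · have hab' : s(((a, b, 0) : Pt), ((a, b, 1) : Pt)) ∈ ω := by tauto
      rw [hl hab', hr' hab']
      exact hc.vert a b hab'
  · intro a b hab
    rw [vx_ux hd] at hab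
    by_cases h : a = x ∧ b = y
    · rw [hphiC, hphiC]
      · unfold vxSq; simp only [Prod.mk.injEq, and_true, zero_ne_one, one_ne_zero, and_false]; omega
      · unfold vxSq; simp only [Prod.mk.injEq, and_true, zero_ne_one, one_ne_zero, and_false]; omega
    · have hab' : s(((a, b, 1) : Pt), ((a + 1, b, 1) : Pt)) ∈ ω := by tauto
      rw [hl hab', hr' hab']
      exact hc.ux a b hab'
  · intro a b hab
    rw [vx_uy hd] at hab
    rw [hl hab, hr' hab]
    exact hc.uy a b hab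
  · intro a b hab hcr
    rw [vx_lx hd] at hab
    rw [vx_uy hd] at hcr
    by_cases h : a = x ∧ b = y
    · obtain ⟨rfl, rfl⟩ := h
      rw [hphiC _ (Or.inl rfl), hphiC _ (Or.inr (Or.inl rfl)), hphiC _ (Or.inr (Or.inr (Or.inl rfl))),
        h1]
    · have hab' : s(((a, b, 0) : Pt), ((a + 1, b, 0) : Pt)) ∈ ω := by tauto
      rw [hl hab', hr' hab', hl hcr]
      exact hc.lx1 a b hab' hcr
  · intro a b hab hcr
    rw [vx_lx hd] at hab
    rw [vx_uy hd] at hcr
    by_cases h : a = x ∧ b = y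
    · obtain ⟨rfl, rfl⟩ := h
      rw [hphiC _ (Or.inl rfl), hphiC _ (Or.inr (Or.inl rfl))]
    · have hab' : s(((a, b, 0) : Pt), ((a + 1, b, 0) : Pt)) ∈ ω := by tauto
      rw [hl hab', hr' hab']
      exact hc.lx2 a b hab' hcr
  · intro a b hab hcr
    rw [vx_ly hd] at hab
    rw [vx_ux hd] at hcr
    by_cases h : a = x ∧ b + 1 = y
    · obtain ⟨rfl, rfl⟩ := h
      have hcr' : s(((a, b + 1, 1) : Pt), ((a + 1, b + 1, 1) : Pt)) ∉ ω := by tauto
      have e1 := hc.ly2 a b hab hcr'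
      have e2 : c (a, b + 1, 0) = c r :=
        vx_const h1 h2 hd hc hr hrV (Or.inl rfl) ⟨_, by rw [Sym2.eq_swap]; exact hab⟩
      rw [hphiC _ (Or.inl rfl), hphiC _ (Or.inr (Or.inr (Or.inr rfl))), hl hab, ← e1, e2, h1]
    · have hcr' : s(((a, b + 1, 1) : Pt), ((a + 1, b + 1, 1) : Pt)) ∈ ω := by tauto
      rw [hl hab, hr' hab, hl hcr']
      exact hc.ly1 a b hab hcr'
  · intro a b hab hcr
    rw [vx_ly hd] at hab
    rw [vx_ux hd, not_not] at hcr
    by_cases h : a = x ∧ b + 1 = y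
    · obtain ⟨rfl, rfl⟩ := h
      have hcr' : s(((a, b + 1, 1) : Pt), ((a + 1, b + 1, 1) : Pt)) ∈ ω := by tauto
      have e1 := hc.ly1 a b hab hcr'
      have e2 : c (a, b + 1, 0) = c r :=
        vx_const h1 h2 hd hc hr hrV (Or.inl rfl) ⟨_, by rw [Sym2.eq_swap]; exact hab⟩
      have e3 : c (a, b + 1, 1) = c r :=
        vx_const h1 h2 hd hc hr hrV (Or.inr (Or.inr (Or.inr rfl))) ⟨_, hcr'⟩
      rw [e2, e3] at e1
      have e4 : c (a, b, 0) = c r := by
        have := h2 (c r) (c (a, b, 0))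
        rw [← e1, h1] at this
        exact this.symm
      rw [hphiC _ (Or.inl rfl), hl hab, e4]
    · have hcr' : s(((a, b + 1, 1) : Pt), ((a + 1, b + 1, 1) : Pt)) ∉ ω := by tauto
      rw [hl hab, hr' hab]
      exact hc.ly2 a b hab hcr'

end Vx

section Vy

variable {op : X → X → X} {ω ω' : Set (Sym2 Pt)} {x y : ℤ}

theorem vy_uy (hd : MoveData ω ω' (x, y, 0) (x, y + 1, 0) (x, y + 1, 1) (x, y, 1))
    (a b : ℤ) : s(((a, b, 1) : Pt), ((a, b + 1, 1) : Pt)) ∈ ω' ↔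
    ¬ (s(((a, b, 1) : Pt), ((a, b + 1, 1) : Pt)) ∈ ω ↔ (a = x ∧ b = y)) := by
  rw [hd.diff]
  refine not_congr (iff_congr Iff.rfl ?_)
  simp only [Sym2.eq_iff, Prod.mk.injEq, and_true, zero_ne_one, one_ne_zero, and_false, or_false,
    false_or, false_and, true_and]
  omega

theorem vy_ly (hd : MoveData ω ω' (x, y, 0) (x, y + 1, 0) (x, y + 1, 1) (x, y, 1))
    (a b : ℤ) : s(((a, b, 0) : Pt), ((a, b + 1, 0) : Pt)) ∈ ω' ↔
    ¬ (s(((a, b, 0) : Pt), ((a, b + 1, 0) : Pt)) ∈ ω ↔ (a = x ∧ b = y)) := by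
  rw [hd.diff]
  refine not_congr (iff_congr Iff.rfl ?_)
  simp only [Sym2.eq_iff, Prod.mk.injEq, and_true, zero_ne_one, one_ne_zero, and_false, or_false,
    false_or, false_and, true_and]
  omega

theorem vy_ux (hd : MoveData ω ω' (x, y, 0) (x, y + 1, 0) (x, y + 1, 1) (x, y, 1))
    (a b : ℤ) : s(((a, b, 1) : Pt), ((a + 1, b, 1) : Pt)) ∈ ω' ↔
    s(((a, b, 1) : Pt), ((a + 1, b, 1) : Pt)) ∈ ω := by
  rw [hd.diff]
  have : ¬ (s(((a, b, 1) : Pt), ((a + 1, b, 1) : Pt)) = s((x, y, 0), (x, y + 1, 0)) ∨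
    s(((a, b, 1) : Pt), ((a + 1, b, 1) : Pt)) = s((x, y + 1, 0), (x, y + 1, 1)) ∨
    s(((a, b, 1) : Pt), ((a + 1, b, 1) : Pt)) = s((x, y + 1, 1), (x, y, 1)) ∨
    s(((a, b, 1) : Pt), ((a + 1, b, 1) : Pt)) = s((x, y, 1), (x, y, 0))) := by
    simp only [Sym2.eq_iff, Prod.mk.injEq, and_true, zero_ne_one, one_ne_zero, and_false,
      or_false, false_or, false_and, true_and]
    omega
  tauto

theorem vy_lx (hd : MoveData ω ω' (x, y, 0) (x, y + 1, 0) (x, y + 1, 1) (x, y, 1))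
    (a b : ℤ) : s(((a, b, 0) : Pt), ((a + 1, b, 0) : Pt)) ∈ ω' ↔
    s(((a, b, 0) : Pt), ((a + 1, b, 0) : Pt)) ∈ ω := by
  rw [hd.diff]
  have : ¬ (s(((a, b, 0) : Pt), ((a + 1, b, 0) : Pt)) = s((x, y, 0), (x, y + 1, 0)) ∨
    s(((a, b, 0) : Pt), ((a + 1, b, 0) : Pt)) = s((x, y + 1, 0), (x, y + 1, 1)) ∨
    s(((a, b, 0) : Pt), ((a + 1, b, 0) : Pt)) = s((x, y + 1, 1), (x, y, 1)) ∨
    s(((a, b, 0) : Pt), ((a + 1, b, 0) : Pt)) = s((x, y, 1), (x, y, 0))) := by
    simp only [Sym2.eq_iff, Prod.mk.injEq, and_true, zero_ne_one, one_ne_zero, and_false,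
      or_false, false_or, false_and, true_and]
    omega
  tauto

theorem vy_vert (hd : MoveData ω ω' (x, y, 0) (x, y + 1, 0) (x, y + 1, 1) (x, y, 1))
    (a b : ℤ) : s(((a, b, 0) : Pt), ((a, b, 1) : Pt)) ∈ ω' ↔
    ¬ (s(((a, b, 0) : Pt), ((a, b, 1) : Pt)) ∈ ω ↔ (a = x ∧ (b = y ∨ b = y + 1))) := by
  rw [hd.diff]
  refine not_congr (iff_congr Iff.rfl ?_)
  simp only [Sym2.eq_iff, Prod.mk.injEq, and_true, zero_ne_one, one_ne_zero, and_false, or_false,
    false_or, false_and, true_and]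
  omega

theorem vy_const (h1 : ∀ a, op a a = a) (h2 : ∀ b a, op b (op b a) = a)
    (hd : MoveData ω ω' (x, y, 0) (x, y + 1, 0) (x, y + 1, 1) (x, y, 1))
    {c : Pt → X} (hc : IsColoring op ω c) {r : Pt} (hr : vySq x y r) (hrV : Vtx ω r) {u : Pt}
    (hu : vySq x y u) (huV : Vtx ω u) : c u = c r := by
  have hBC : s(((x, y + 1, 0) : Pt), ((x, y + 1, 1) : Pt)) ∈ ω →
      c (x, y + 1, 0) = c (x, y + 1, 1) := hc.vert x (y + 1)
  have hCD : s(((x, y + 1, 1) : Pt), ((x, y, 1) : Pt)) ∈ ω → c (x, y + 1, 1) = c (x, y, 1) :=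
    fun h => (hc.uy x y (by rw [Sym2.eq_swap]; exact h)).symm
  have hDA : s(((x, y, 1) : Pt), ((x, y, 0) : Pt)) ∈ ω → c (x, y, 1) = c (x, y, 0) :=
    fun h => (hc.vert x y (by rw [Sym2.eq_swap]; exact h)).symm
  have hAB : s(((x, y, 0) : Pt), ((x, y + 1, 0) : Pt)) ∈ ω → c (x, y, 0) = c (x, y + 1, 0) := by
    intro h
    by_cases hcr : s(((x, y + 1, 1) : Pt), ((x + 1, y + 1, 1) : Pt)) ∈ ω
    · have e1 := hc.ly1 x y h hcr
      rcases hd.cornerC ⟨_, hcr⟩ with m2 | m3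
      · rw [← hBC m2] at e1
        exact op_fix h1 h2 e1
      · by_cases m2 : s(((x, y + 1, 0) : Pt), ((x, y + 1, 1) : Pt)) ∈ ω
        · rw [← hBC m2] at e1
          exact op_fix h1 h2 e1
        · have m4 : s(((x, y, 1) : Pt), ((x, y, 0) : Pt)) ∈ ω := by
            by_contra m4
            exact hd.pat ⟨⟨fun _ => m3, fun _ => h⟩, ⟨fun hh => absurd hh m2,
              fun hh => absurd hh m4⟩⟩
          rw [hCD m3, hDA m4, h1] at e1
          exact e1.symm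
    · exact (hc.ly2 x y h hcr).symm
  obtain ⟨s, hA, hB, hC, hD⟩ := corners_const hAB hBC hCD hDA hd.cornerA hd.cornerB hd.cornerC
    hd.cornerD hd.pat
  have key : ∀ u, vySq x y u → Vtx ω u → c u = s := by
    rintro u (rfl | rfl | rfl | rfl) hV
    · exact hA hV
    · exact hB hV
    · exact hC hV
    · exact hD hV
  rw [key u hu huV, key r hr hrV]

theorem vy_move (h1 : ∀ a, op a a = a) (h2 : ∀ b a, op b (op b a) = a)
    (hd : MoveData ω ω' (x, y, 0) (x, y + 1, 0) (x, y + 1, 1) (x, y, 1))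
    {c : Pt → X} (hc : IsColoring op ω c) {r : Pt} (hr : vySq x y r) (hrV : Vtx ω r) :
    IsColoring op ω' (PhiVy x y r c) := by
  have hphiC : ∀ u, vySq x y u → PhiVy x y r c u = c r := by
    intro u hu
    unfold PhiVy
    rw [if_pos hu]
  have hphiV : ∀ u, Vtx ω u → PhiVy x y r c u = c u := by
    intro u hV
    unfold PhiVy
    by_cases hu : vySq x y u
    · rw [if_pos hu, vy_const h1 h2 hd hc hr hrV hu hV]
    · rw [if_neg hu]
  have hl : ∀ {u v : Pt}, s(u, v) ∈ ω → PhiVy x y r c u = c u := fun h => hphiV _ ⟨_, h⟩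
  have hr' : ∀ {u v : Pt}, s(u, v) ∈ ω → PhiVy x y r c v = c v := fun h =>
    hphiV _ ⟨_, by rw [Sym2.eq_swap]; exact h⟩
  refine ⟨?_, ?_, ?_, ?_, ?_, ?_, ?_⟩
  · intro a b hab
    rw [vy_vert hd] at hab
    by_cases h : a = x ∧ (b = y ∨ b = y + 1)
    · rw [hphiC, hphiC]
      · unfold vySq; simp only [Prod.mk.injEq, and_true, zero_ne_one, one_ne_zero, and_false]; omega
      · unfold vySq; simp only [Prod.mk.injEq, and_true, zero_ne_one, one_ne_zero, and_false]; omega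
    · have hab' : s(((a, b, 0) : Pt), ((a, b, 1) : Pt)) ∈ ω := by tauto
      rw [hl hab', hr' hab']
      exact hc.vert a b hab'
  · intro a b hab
    rw [vy_ux hd] at hab
    rw [hl hab, hr' hab]
    exact hc.ux a b hab
  · intro a b hab
    rw [vy_uy hd] at hab
    by_cases h : a = x ∧ b = y
    · rw [hphiC, hphiC]
      · unfold vySq; simp only [Prod.mk.injEq, and_true, zero_ne_one, one_ne_zero, and_false]; omega
      · unfold vySq; simp only [Prod.mk.injEq, and_true, zero_ne_one, one_ne_zero, and_false]; omega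
    · have hab' : s(((a, b, 1) : Pt), ((a, b + 1, 1) : Pt)) ∈ ω := by tauto
      rw [hl hab', hr' hab']
      exact hc.uy a b hab'
  · intro a b hab hcr
    rw [vy_lx hd] at hab
    rw [vy_uy hd] at hcr
    by_cases h : a + 1 = x ∧ b = y
    · obtain ⟨rfl, rfl⟩ := h
      have hcr' : s(((a + 1, b, 1) : Pt), ((a + 1, b + 1, 1) : Pt)) ∉ ω := by tauto
      have e1 := hc.lx2 a b hab hcr'
      have e2 : c (a + 1, b, 0) = c r :=
        vy_const h1 h2 hd hc hr hrV (Or.inl rfl) ⟨_, by rw [Sym2.eq_swap]; exact hab⟩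
      rw [hphiC _ (Or.inl rfl), hphiC _ (Or.inr (Or.inr (Or.inr rfl))), hl hab, ← e1, e2, h1]
    · have hcr' : s(((a + 1, b, 1) : Pt), ((a + 1, b + 1, 1) : Pt)) ∈ ω := by tauto
      rw [hl hab, hr' hab, hl hcr']
      exact hc.lx1 a b hab hcr'
  · intro a b hab hcr
    rw [vy_lx hd] at hab
    rw [vy_uy hd, not_not] at hcr
    by_cases h : a + 1 = x ∧ b = y
    · obtain ⟨rfl, rfl⟩ := h
      have hcr' : s(((a + 1, b, 1) : Pt), ((a + 1, b + 1, 1) : Pt)) ∈ ω := by tauto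
      have e1 := hc.lx1 a b hab hcr'
      have e2 : c (a + 1, b, 0) = c r :=
        vy_const h1 h2 hd hc hr hrV (Or.inl rfl) ⟨_, by rw [Sym2.eq_swap]; exact hab⟩
      have e3 : c (a + 1, b, 1) = c r :=
        vy_const h1 h2 hd hc hr hrV (Or.inr (Or.inr (Or.inr rfl))) ⟨_, hcr'⟩
      rw [e2, e3] at e1
      have e4 : c (a, b, 0) = c r := by
        have := h2 (c r) (c (a, b, 0))
        rw [← e1, h1] at this
        exact this.symm
      rw [hphiC _ (Or.inl rfl), hl hab, e4]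
    · have hcr' : s(((a + 1, b, 1) : Pt), ((a + 1, b + 1, 1) : Pt)) ∉ ω := by tauto
      rw [hl hab, hr' hab]
      exact hc.lx2 a b hab hcr'
  · intro a b hab hcr
    rw [vy_ly hd] at hab
    rw [vy_ux hd] at hcr
    by_cases h : a = x ∧ b = y
    · obtain ⟨rfl, rfl⟩ := h
      rw [hphiC _ (Or.inl rfl), hphiC _ (Or.inr (Or.inl rfl)), hphiC _ (Or.inr (Or.inr (Or.inl rfl))),
        h1]
    · have hab' : s(((a, b, 0) : Pt), ((a, b + 1, 0) : Pt)) ∈ ω := by tauto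
      rw [hl hab', hr' hab', hl hcr]
      exact hc.ly1 a b hab' hcr
  · intro a b hab hcr
    rw [vy_ly hd] at hab
    rw [vy_ux hd] at hcr
    by_cases h : a = x ∧ b = y
    · obtain ⟨rfl, rfl⟩ := h
      rw [hphiC _ (Or.inl rfl), hphiC _ (Or.inr (Or.inl rfl))]
    · have hab' : s(((a, b, 0) : Pt), ((a, b + 1, 0) : Pt)) ∈ ω := by tauto
      rw [hl hab', hr' hab']
      exact hc.ly2 a b hab' hcr

end Vy

end Pool.Agent.Lib.MP_dd2c10_pr
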