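import Mathlib
import Pool.Agent.Lib.MP_dd2c10_pr.Coloring

/-!
# Transport of colourings across lower squares
-/

namespace Pool.Agent.Lib.MP_dd2c10_pr

set_option linter.unusedSimpArgs false

variable {X : Type*}

open Classical in
/-- Apply `op t` when `q` holds. -/
noncomputable def tw (op : X → X → X) (t : X) (q : Prop) (v : X) : X := if q then op t v else v

theorem tw_tw {op : X → X → X} (h2 : ∀ b a, op b (op b a) = a) (t : X) (q : Prop) (v : X) :
    tw op t q (tw op t q v) = v := by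
  unfold tw
  split_ifs
  · exact h2 _ _
  · rfl

theorem tw_comm {op : X → X → X} (t : X) (q q' : Prop) (v : X) :
    tw op t q (tw op t q' v) = tw op t q' (tw op t q v) := by
  unfold tw
  split_ifs <;> rfl

theorem tw_self {op : X → X → X} (h1 : ∀ a, op a a = a) (t : X) (q : Prop) : tw op t q t = t := by
  unfold tw
  split_ifs
  · exact h1 _
  · rfl

theorem tw_pos {op : X → X → X} (t : X) {q : Prop} (hq : q) (v : X) : tw op t q v = op t v := by
  unfold tw
  rw [if_pos hq]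

theorem tw_neg {op : X → X → X} (t : X) {q : Prop} (hq : ¬ q) (v : X) : tw op t q v = v := by
  unfold tw
  rw [if_neg hq]

theorem tw_parity {op : X → X → X} (h2 : ∀ b a, op b (op b a) = a) (t : X) {q₁ q₂ q₃ q₄ : Prop}
    (h : (q₁ ↔ q₂) ↔ (q₃ ↔ q₄)) (v : X) :
    tw op t q₁ (tw op t q₂ v) = tw op t q₃ (tw op t q₄ v) := by
  by_cases a1 : q₁
  · by_cases a2 : q₂
    · rw [tw_pos t a1, tw_pos t a2, h2]
      by_cases a3 : q₃
      · have a4 : q₄ := by tauto
        rw [tw_pos t a3, tw_pos t a4, h2]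
      · have a4 : ¬ q₄ := by tauto
        rw [tw_neg t a3, tw_neg t a4]
    · rw [tw_pos t a1, tw_neg t a2]
      by_cases a3 : q₃
      · have a4 : ¬ q₄ := by tauto
        rw [tw_pos t a3, tw_neg t a4]
      · have a4 : q₄ := by tauto
        rw [tw_neg t a3, tw_pos t a4]
  · by_cases a2 : q₂
    · rw [tw_neg t a1, tw_pos t a2]
      by_cases a3 : q₃
      · have a4 : ¬ q₄ := by tauto
        rw [tw_pos t a3, tw_neg t a4]
      · have a4 : q₄ := by tauto
        rw [tw_neg t a3, tw_pos t a4]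
    · rw [tw_neg t a1, tw_neg t a2]
      by_cases a3 : q₃
      · have a4 : q₄ := by tauto
        rw [tw_pos t a3, tw_pos t a4, h2]
      · have a4 : ¬ q₄ := by tauto
        rw [tw_neg t a3, tw_neg t a4]

/-- The four corners of the lower unit square at `(x, y)`. -/
def lowSq (x y : ℤ) (u : Pt) : Prop :=
  u = (x, y, 0) ∨ u = (x + 1, y, 0) ∨ u = (x + 1, y + 1, 0) ∨ u = (x, y + 1, 0)

/-- The crossings of the four edges of the lower square at `(x, y)`. -/
def q1 (ω : Set (Sym2 Pt)) (x y : ℤ) : Prop := s(((x + 1, y, 1) : Pt), ((x + 1, y + 1, 1) : Pt)) ∈ ω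
/-- See `q1`. -/
def q2 (ω : Set (Sym2 Pt)) (x y : ℤ) : Prop :=
  s(((x + 1, y + 1, 1) : Pt), ((x + 1 + 1, y + 1, 1) : Pt)) ∈ ω
/-- See `q1`. -/
def q3 (ω : Set (Sym2 Pt)) (x y : ℤ) : Prop :=
  s(((x + 1, y + 1, 1) : Pt), ((x + 1, y + 1 + 1, 1) : Pt)) ∈ ω
/-- See `q1`. -/
def q4 (ω : Set (Sym2 Pt)) (x y : ℤ) : Prop := s(((x, y + 1, 1) : Pt), ((x + 1, y + 1, 1) : Pt)) ∈ ω

open Classical in
/-- Normalised colour of a corner. -/
noncomputable def nrm (op : X → X → X) (ω : Set (Sym2 Pt)) (x y : ℤ) (t : X) (u : Pt) (v : X) : X :=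
  if u = (x + 1, y, 0) then tw op t (q1 ω x y) v
  else if u = (x + 1, y + 1, 0) then tw op t (q1 ω x y) (tw op t (q2 ω x y) v)
  else if u = (x, y + 1, 0) then tw op t (q4 ω x y) v
  else v

theorem nrm_nrm {op : X → X → X} (h2 : ∀ b a, op b (op b a) = a) (ω : Set (Sym2 Pt)) (x y : ℤ)
    (t : X) (u : Pt) (v : X) : nrm op ω x y t u (nrm op ω x y t u v) = v := by
  unfold nrm
  split_ifs
  · exact tw_tw h2 _ _ _
  · rw [tw_comm t (q2 ω x y) (q1 ω x y), tw_tw h2, tw_tw h2]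
  · exact tw_tw h2 _ _ _
  · rfl

theorem nrm_self {op : X → X → X} (h1 : ∀ a, op a a = a) (ω : Set (Sym2 Pt)) (x y : ℤ)
    (t : X) (u : Pt) : nrm op ω x y t u t = t := by
  unfold nrm
  split_ifs
  · exact tw_self h1 _ _
  · rw [tw_self h1, tw_self h1]
  · exact tw_self h1 _ _
  · rfl

open Classical in
/-- Transformation of colourings under an elementary move across a lower square. -/
noncomputable def PhiLow (op : X → X → X) (ω : Set (Sym2 Pt)) (x y : ℤ) (r : Pt) (c : Pt → X)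
    (u : Pt) : X :=
  if lowSq x y u then
    nrm op ω x y (c (x + 1, y + 1, 1)) u (nrm op ω x y (c (x + 1, y + 1, 1)) r (c r))
  else c u

section Low

variable {op : X → X → X} {ω ω' : Set (Sym2 Pt)} {x y : ℤ}

theorem low_lx (hd : MoveData ω ω' (x, y, 0) (x + 1, y, 0) (x + 1, y + 1, 0) (x, y + 1, 0))
    (a b : ℤ) : s(((a, b, 0) : Pt), ((a + 1, b, 0) : Pt)) ∈ ω' ↔
    ¬ (s(((a, b, 0) : Pt), ((a + 1, b, 0) : Pt)) ∈ ω ↔ (a = x ∧ (b = y ∨ b = y + 1))) := by
  rw [hd.diff]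
  refine not_congr (iff_congr Iff.rfl ?_)
  simp only [Sym2.eq_iff, Prod.mk.injEq, and_true]
  omega

theorem low_ly (hd : MoveData ω ω' (x, y, 0) (x + 1, y, 0) (x + 1, y + 1, 0) (x, y + 1, 0))
    (a b : ℤ) : s(((a, b, 0) : Pt), ((a, b + 1, 0) : Pt)) ∈ ω' ↔
    ¬ (s(((a, b, 0) : Pt), ((a, b + 1, 0) : Pt)) ∈ ω ↔ (b = y ∧ (a = x ∨ a = x + 1))) := by
  rw [hd.diff]
  refine not_congr (iff_congr Iff.rfl ?_)
  simp only [Sym2.eq_iff, Prod.mk.injEq, and_true]
  omega

theorem low_other (hd : MoveData ω ω' (x, y, 0) (x + 1, y, 0) (x + 1, y + 1, 0) (x, y + 1, 0))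
    (a b : ℤ) (v : Pt) : s(v, ((a, b, 1) : Pt)) ∈ ω' ↔ s(v, ((a, b, 1) : Pt)) ∈ ω := by
  rw [hd.diff]
  obtain ⟨v1, v2, v3⟩ := v
  have : ¬ (s(((v1, v2, v3) : Pt), ((a, b, 1) : Pt)) = s((x, y, 0), (x + 1, y, 0)) ∨
    s(((v1, v2, v3) : Pt), ((a, b, 1) : Pt)) = s((x + 1, y, 0), (x + 1, y + 1, 0)) ∨
    s(((v1, v2, v3) : Pt), ((a, b, 1) : Pt)) = s((x + 1, y + 1, 0), (x, y + 1, 0)) ∨
    s(((v1, v2, v3) : Pt), ((a, b, 1) : Pt)) = s((x, y + 1, 0), (x, y, 0))) := by
    simp only [Sym2.eq_iff, Prod.mk.injEq]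
    omega
  tauto

/-- If an odd number of horizontal upper edges meets at the centre, then there is a vertical edge
there. -/
theorem centre_parity (hd : MoveData ω ω' (x, y, 0) (x + 1, y, 0) (x + 1, y + 1, 0) (x, y + 1, 0))
    (hodd : ¬ ((q1 ω x y ↔ q2 ω x y) ↔ (q3 ω x y ↔ q4 ω x y))) :
    s(((x + 1, y + 1, 0) : Pt), ((x + 1, y + 1, 1) : Pt)) ∈ ω := by
  have hg := hd.good
  -- the neighbours of the centre
  have hnb : ∀ v : Pt, s(((x + 1, y + 1, 1) : Pt), v) ∈ ω → v = (x + 1, y, 1) ∨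
      v = (x + 1 + 1, y + 1, 1) ∨ v = (x + 1, y + 1 + 1, 1) ∨ v = (x, y + 1, 1) ∨
      v = (x + 1, y + 1, 0) := by
    rintro ⟨v1, v2, v3⟩ hv
    have h3 := hg.adj _ _ hv
    have h4 := hg.slab (v1, v2, v3) (x + 1, y + 1, 1) (by rw [Sym2.eq_swap]; exact hv)
    simp only [cubic] at h3
    simp only at h4
    simp only [Prod.mk.injEq]
    have a1 := abs_nonneg (x + 1 - v1)
    have a2 := abs_nonneg (y + 1 - v2)
    have a3 := abs_nonneg (1 - v3)
    have b1 := abs_cases (x + 1 - v1)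
    have b2 := abs_cases (y + 1 - v2)
    have b3 := abs_cases (1 - v3)
    omega
  have e1 : q1 ω x y ↔ s(((x + 1, y + 1, 1) : Pt), ((x + 1, y, 1) : Pt)) ∈ ω := by
    unfold q1; rw [Sym2.eq_swap]
  have e4 : q4 ω x y ↔ s(((x + 1, y + 1, 1) : Pt), ((x, y + 1, 1) : Pt)) ∈ ω := by
    unfold q4; rw [Sym2.eq_swap]
  rw [e1, e4] at hodd
  unfold q2 q3 at hodd
  have hex : ∃ v, s(((x + 1, y + 1, 1) : Pt), v) ∈ ω := by
    by_contra hcon
    push Not at hcon
    apply hodd
    have n1 := hcon (x + 1, y, 1)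
    have n2 := hcon (x + 1 + 1, y + 1, 1)
    have n3 := hcon (x + 1, y + 1 + 1, 1)
    have n4 := hcon (x, y + 1, 1)
    tauto
  obtain ⟨v, hv⟩ := hex
  obtain ⟨p, q, hpq, hz⟩ := hg.deg _ v hv
  rw [hz, hz, hz, hz] at hodd
  rw [Sym2.eq_swap, hz]
  have hp := hnb p ((hz p).mpr (Or.inl rfl))
  have hq := hnb q ((hz q).mpr (Or.inr rfl))
  by_contra hcon
  apply hodd
  rcases hp with rfl | rfl | rfl | rfl | rfl <;> rcases hq with rfl | rfl | rfl | rfl | rfl <;>
    simp at hpq hcon ⊢ <;> omega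

/-- All corners on the polygon have the same normalised colour. -/
theorem low_const (h1 : ∀ a, op a a = a) (h2 : ∀ b a, op b (op b a) = a)
    (hd : MoveData ω ω' (x, y, 0) (x + 1, y, 0) (x + 1, y + 1, 0) (x, y + 1, 0))
    {c : Pt → X} (hc : IsColoring op ω c) :
    ∃ s, (∀ u, lowSq x y u → Vtx ω u → nrm op ω x y (c (x + 1, y + 1, 1)) u (c u) = s) ∧
      (((q1 ω x y ↔ q2 ω x y) ↔ (q3 ω x y ↔ q4 ω x y)) ∨ s = c (x + 1, y + 1, 1)) := by
  set t := c (x + 1, y + 1, 1) with ht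
  have nA : ∀ v, nrm op ω x y t (x, y, 0) v = v := by
    intro v
    unfold nrm
    rw [if_neg (by simp), if_neg (by simp), if_neg (by simp)]
  have nB : ∀ v, nrm op ω x y t (x + 1, y, 0) v = tw op t (q1 ω x y) v := by
    intro v
    unfold nrm
    rw [if_pos rfl]
  have nC : ∀ v, nrm op ω x y t (x + 1, y + 1, 0) v = tw op t (q1 ω x y) (tw op t (q2 ω x y) v) := by
    intro v
    unfold nrm
    rw [if_neg (by simp), if_pos rfl]
  have nD : ∀ v, nrm op ω x y t (x, y + 1, 0) v = tw op t (q4 ω x y) v := by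
    intro v
    unfold nrm
    rw [if_neg (by simp), if_neg (by simp), if_pos rfl]
  -- the constraints on the four edges
  have mAB : s(((x, y, 0) : Pt), ((x + 1, y, 0) : Pt)) ∈ ω →
      c (x + 1, y, 0) = tw op t (q1 ω x y) (c (x, y, 0)) := by
    intro h
    unfold tw
    split_ifs with hq
    · rw [hc.lx1 x y h hq, hc.uy (x + 1) y hq]
    · exact hc.lx2 x y h hq
  have mBC : s(((x + 1, y, 0) : Pt), ((x + 1, y + 1, 0) : Pt)) ∈ ω →
      c (x + 1, y + 1, 0) = tw op t (q2 ω x y) (c (x + 1, y, 0)) := by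
    intro h
    unfold tw
    split_ifs with hq
    · exact hc.ly1 (x + 1) y h hq
    · exact hc.ly2 (x + 1) y h hq
  have mCD : s(((x + 1, y + 1, 0) : Pt), ((x, y + 1, 0) : Pt)) ∈ ω →
      c (x + 1, y + 1, 0) = tw op t (q3 ω x y) (c (x, y + 1, 0)) := by
    intro h
    rw [Sym2.eq_swap] at h
    unfold tw
    split_ifs with hq
    · exact hc.lx1 x (y + 1) h hq
    · exact hc.lx2 x (y + 1) h hq
  have mDA : s(((x, y + 1, 0) : Pt), ((x, y, 0) : Pt)) ∈ ω →
      c (x, y + 1, 0) = tw op t (q4 ω x y) (c (x, y, 0)) := by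
    intro h
    rw [Sym2.eq_swap] at h
    unfold tw
    split_ifs with hq
    · rw [hc.ly1 x y h hq, hc.ux x (y + 1) hq]
    · exact hc.ly2 x y h hq
  by_cases heven : (q1 ω x y ↔ q2 ω x y) ↔ (q3 ω x y ↔ q4 ω x y)
  · obtain ⟨s, hA, hB, hC, hD⟩ := corners_const
      (cA := nrm op ω x y t (x, y, 0) (c (x, y, 0)))
      (cB := nrm op ω x y t (x + 1, y, 0) (c (x + 1, y, 0)))
      (cC := nrm op ω x y t (x + 1, y + 1, 0) (c (x + 1, y + 1, 0)))
      (cD := nrm op ω x y t (x, y + 1, 0) (c (x, y + 1, 0)))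
      (fun h => by rw [nA, nB, mAB h, tw_tw h2])
      (fun h => by rw [nB, nC, mBC h, tw_tw h2])
      (fun h => by
        rw [nC, nD, mCD h, tw_parity h2 t heven, tw_comm t (q4 ω x y) (q3 ω x y), tw_tw h2])
      (fun h => by rw [nD, nA, mDA h, tw_tw h2]) hd.cornerA hd.cornerB hd.cornerC
      hd.cornerD hd.pat
    refine ⟨s, ?_, Or.inl heven⟩
    rintro u (rfl | rfl | rfl | rfl) hV
    · exact hA hV
    · exact hB hV
    · exact hC hV
    · exact hD hV
  · have hvert := centre_parity hd heven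
    have hCt : c (x + 1, y + 1, 0) = t := hc.vert (x + 1) (y + 1) hvert
    -- all the colours are `t`
    have fixtw : ∀ (q : Prop) (v : X), tw op t q v = t → v = t := by
      intro q v hv
      have := tw_tw h2 t q v
      rw [hv, tw_self h1] at this
      exact this.symm
    have eAB : s(((x, y, 0) : Pt), ((x + 1, y, 0) : Pt)) ∈ ω →
        (c (x, y, 0) = t) = (c (x + 1, y, 0) = t) := by
      intro h
      rw [mAB h]
      apply propext
      constructor
      · intro hh; rw [hh, tw_self h1]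
      · exact fixtw _ _
    have eBC : s(((x + 1, y, 0) : Pt), ((x + 1, y + 1, 0) : Pt)) ∈ ω →
        (c (x + 1, y, 0) = t) = (c (x + 1, y + 1, 0) = t) := by
      intro h
      rw [mBC h]
      apply propext
      constructor
      · intro hh; rw [hh, tw_self h1]
      · exact fixtw _ _
    have eCD : s(((x + 1, y + 1, 0) : Pt), ((x, y + 1, 0) : Pt)) ∈ ω →
        (c (x + 1, y + 1, 0) = t) = (c (x, y + 1, 0) = t) := by
      intro h
      rw [mCD h]
      apply propext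
      constructor
      · exact fixtw _ _
      · intro hh; rw [hh, tw_self h1]
    have eDA : s(((x, y + 1, 0) : Pt), ((x, y, 0) : Pt)) ∈ ω →
        (c (x, y + 1, 0) = t) = (c (x, y, 0) = t) := by
      intro h
      rw [mDA h]
      apply propext
      constructor
      · exact fixtw _ _
      · intro hh; rw [hh, tw_self h1]
    obtain ⟨s, hA, hB, hC, hD⟩ := corners_const eAB eBC eCD eDA hd.cornerA hd.cornerB hd.cornerC
      hd.cornerD hd.pat
    have hs : s := by
      rw [← hC ⟨_, hvert⟩]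
      exact hCt
    refine ⟨t, ?_, Or.inr rfl⟩
    have hall : ∀ u, lowSq x y u → Vtx ω u → c u = t := by
      rintro u (rfl | rfl | rfl | rfl) hV
      · rw [hA hV]; exact hs
      · rw [hB hV]; exact hs
      · rw [hC hV]; exact hs
      · rw [hD hV]; exact hs
    intro u hu hV
    rw [hall u hu hV, nrm_self h1]

theorem low_move (h1 : ∀ a, op a a = a) (h2 : ∀ b a, op b (op b a) = a)
    (hd : MoveData ω ω' (x, y, 0) (x + 1, y, 0) (x + 1, y + 1, 0) (x, y + 1, 0))
    {c : Pt → X} (hc : IsColoring op ω c) {r : Pt} (hr : lowSq x y r) (hrV : Vtx ω r) :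
    IsColoring op ω' (PhiLow op ω x y r c) := by
  obtain ⟨s, hs, hpar⟩ := low_const h1 h2 hd hc
  set t := c (x + 1, y + 1, 1) with ht
  have hrs : nrm op ω x y t r (c r) = s := hs r hr hrV
  have hphiC : ∀ u, lowSq x y u → PhiLow op ω x y r c u = nrm op ω x y t u s := by
    intro u hu
    unfold PhiLow
    rw [if_pos hu, ← ht, hrs]
  have hphiV : ∀ u, Vtx ω u → PhiLow op ω x y r c u = c u := by
    intro u hV
    by_cases hu : lowSq x y u
    · rw [hphiC u hu, ← hs u hu hV, nrm_nrm h2]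
    · unfold PhiLow
      rw [if_neg hu]
  have hphiU : ∀ a b : ℤ, PhiLow op ω x y r c (a, b, 1) = c (a, b, 1) := by
    intro a b
    unfold PhiLow
    rw [if_neg]
    unfold lowSq
    simp
  have hl : ∀ {u v : Pt}, s(u, v) ∈ ω → PhiLow op ω x y r c u = c u := fun h => hphiV _ ⟨_, h⟩
  have hr' : ∀ {u v : Pt}, s(u, v) ∈ ω → PhiLow op ω x y r c v = c v := fun h =>
    hphiV _ ⟨_, by rw [Sym2.eq_swap]; exact h⟩
  have vA : PhiLow op ω x y r c (x, y, 0) = s := by
    rw [hphiC _ (Or.inl rfl)]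
    unfold nrm
    rw [if_neg (by simp), if_neg (by simp), if_neg (by simp)]
  have vB : PhiLow op ω x y r c (x + 1, y, 0) = tw op t (q1 ω x y) s := by
    rw [hphiC _ (Or.inr (Or.inl rfl))]
    unfold nrm
    rw [if_pos rfl]
  have vC : PhiLow op ω x y r c (x + 1, y + 1, 0) = tw op t (q1 ω x y) (tw op t (q2 ω x y) s) := by
    rw [hphiC _ (Or.inr (Or.inr (Or.inl rfl)))]
    unfold nrm
    rw [if_neg (by simp), if_pos rfl]
  have vD : PhiLow op ω x y r c (x, y + 1, 0) = tw op t (q4 ω x y) s := by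
    rw [hphiC _ (Or.inr (Or.inr (Or.inr rfl)))]
    unfold nrm
    rw [if_neg (by simp), if_neg (by simp), if_pos rfl]
  -- the compatibility on the third edge
  have h34 : tw op t (q1 ω x y) (tw op t (q2 ω x y) s) = tw op t (q3 ω x y) (tw op t (q4 ω x y) s) := by
    rcases hpar with heven | hst
    · exact tw_parity h2 t heven s
    · rw [hst]
      simp only [tw_self h1]
  refine ⟨?_, ?_, ?_, ?_, ?_, ?_, ?_⟩
  · intro a b hab
    rw [low_other hd] at hab
    rw [hl hab, hphiU]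
    exact hc.vert a b hab
  · intro a b hab
    rw [low_other hd] at hab
    rw [hphiU, hphiU]
    exact hc.ux a b hab
  · intro a b hab
    rw [low_other hd] at hab
    rw [hphiU, hphiU]
    exact hc.uy a b hab
  · intro a b hab hcr
    rw [low_lx hd] at hab
    rw [low_other hd] at hcr
    by_cases h : a = x ∧ (b = y ∨ b = y + 1)
    · obtain ⟨rfl, rfl | rfl⟩ := h
      · have hq : q1 ω a b := hcr
        rw [vA, vB, hphiU, hc.uy _ _ hcr, ← ht, tw_pos t hq]
      · have hq : q3 ω a y := hcr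
        rw [vC, vD, hphiU, ← ht, h34, tw_pos t hq]
    · have hab' : s(((a, b, 0) : Pt), ((a + 1, b, 0) : Pt)) ∈ ω := by tauto
      rw [hl hab', hr' hab', hphiU]
      exact hc.lx1 a b hab' hcr
  · intro a b hab hcr
    rw [low_lx hd] at hab
    rw [low_other hd] at hcr
    by_cases h : a = x ∧ (b = y ∨ b = y + 1)
    · obtain ⟨rfl, rfl | rfl⟩ := h
      · have hq : ¬ q1 ω a b := hcr
        rw [vA, vB, tw_neg t hq]
      · have hq : ¬ q3 ω a y := hcr
        rw [vC, vD, h34, tw_neg t hq]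
    · have hab' : s(((a, b, 0) : Pt), ((a + 1, b, 0) : Pt)) ∈ ω := by tauto
      rw [hl hab', hr' hab']
      exact hc.lx2 a b hab' hcr
  · intro a b hab hcr
    rw [low_ly hd] at hab
    rw [low_other hd] at hcr
    by_cases h : b = y ∧ (a = x ∨ a = x + 1)
    · obtain ⟨rfl, rfl | rfl⟩ := h
      · have hq : q4 ω a b := hcr
        rw [vA, vD, hphiU, hc.ux _ _ hcr, ← ht, tw_pos t hq]
      · have hq : q2 ω x b := hcr
        rw [vB, vC, hphiU, ← ht, tw_comm, tw_pos t hq]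
    · have hab' : s(((a, b, 0) : Pt), ((a, b + 1, 0) : Pt)) ∈ ω := by tauto
      rw [hl hab', hr' hab', hphiU]
      exact hc.ly1 a b hab' hcr
  · intro a b hab hcr
    rw [low_ly hd] at hab
    rw [low_other hd] at hcr
    by_cases h : b = y ∧ (a = x ∨ a = x + 1)
    · obtain ⟨rfl, rfl | rfl⟩ := h
      · have hq : ¬ q4 ω a b := hcr
        rw [vA, vD, tw_neg t hq]
      · have hq : ¬ q2 ω x b := hcr
        rw [vB, vC, tw_comm, tw_neg t hq]
    · have hab' : s(((a, b, 0) : Pt), ((a, b + 1, 0) : Pt)) ∈ ω := by tauto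
      rw [hl hab', hr' hab']
      exact hc.ly2 a b hab' hcr

end Low

end Pool.Agent.Lib.MP_dd2c10_pr
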