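import Mathlib
import Pool.Agent.Lib.MP_dd2c10_pr.ColoringLow

/-!
# Invariance of colourings under elementary moves in the slab of width one
-/

namespace Pool.Agent.Lib.MP_dd2c10_pr

set_option linter.unusedSimpArgs false

variable {X : Type*} {op : X → X → X}

/-- A transformation of colourings. -/
structure Transfer (op : X → X → X) (ω ω' : Set (Sym2 Pt)) (Φ : (Pt → X) → (Pt → X)) : Prop where
  map : ∀ c, IsColoring op ω c → IsColoring op ω' (Φ c)
  inv : ∀ c, IsColoring op ω c → ∀ u, Vtx ω u → Φ (Φ c) u = c u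
  congr : ∀ c1 c2, (∀ u, Vtx ω u → c1 u = c2 u) → ∀ u, Vtx ω' u → Φ c1 u = Φ c2 u
  const : ∀ k, Φ (fun _ => k) = fun _ => k

theorem MoveData.vtx_of_vtx {ω ω' : Set (Sym2 Pt)} {A B C D : Pt} (h : MoveData ω ω' A B C D)
    {u : Pt} (hu : Vtx ω' u) : Vtx ω u ∨ (u = A ∨ u = B ∨ u = C ∨ u = D) := by
  obtain ⟨v, hv⟩ := hu
  by_cases hw : s(u, v) ∈ ω
  · exact Or.inl ⟨v, hw⟩
  · right
    rw [h.diff] at hv
    have : s(u, v) = s(A, B) ∨ s(u, v) = s(B, C) ∨ s(u, v) = s(C, D) ∨ s(u, v) = s(D, A) := by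
      tauto
    have hmem : u ∈ s(u, v) := by simp
    rcases this with h | h | h | h <;> rw [h, Sym2.mem_iff] at hmem <;> tauto

theorem transfer_up (h1 : ∀ a, op a a = a) (h2 : ∀ b a, op b (op b a) = a)
    {ω ω' : Set (Sym2 Pt)} {x y : ℤ}
    (hd : MoveData ω ω' (x, y, 1) (x + 1, y, 1) (x + 1, y + 1, 1) (x, y + 1, 1)) {r : Pt}
    (hr : upSq x y r) (hrV : Vtx ω r) : Transfer op ω ω' (PhiUp op x y r) where
  map c hc := up_move h1 h2 hd hc hr hrV
  inv c hc u hu := by
    have hr' : PhiUp op x y r c r = c r := by unfold PhiUp; rw [if_pos hr]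
    by_cases hu' : upSq x y u
    · unfold PhiUp
      rw [if_pos hu', if_pos hr]
      exact (up_const hd hc hr hrV hu' hu).symm
    · by_cases hu0 : u = (x, y, 0)
      · have e1 : PhiUp op x y r (PhiUp op x y r c) u
            = op (PhiUp op x y r c r) (PhiUp op x y r c u) := by
          conv_lhs => unfold PhiUp
          rw [if_neg hu', if_pos hu0]
          rfl
        have e2 : PhiUp op x y r c u = op (c r) (c u) := by
          unfold PhiUp
          rw [if_neg hu', if_pos hu0]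
        rw [e1, e2, hr', h2]
      · unfold PhiUp
        rw [if_neg hu', if_neg hu0, if_neg hu', if_neg hu0]
  congr c1 c2 h12 u hu := by
    unfold PhiUp
    by_cases hu' : upSq x y u
    · rw [if_pos hu', if_pos hu']
      exact h12 r hrV
    · have huV : Vtx ω u := by
        rcases hd.vtx_of_vtx hu with h | h
        · exact h
        · exact absurd h hu'
      rw [if_neg hu', if_neg hu', h12 u huV, h12 r hrV]
  const k := by
    funext u
    unfold PhiUp
    split_ifs
    · rfl
    · exact h1 k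
    · rfl

theorem transfer_vx (h1 : ∀ a, op a a = a) (h2 : ∀ b a, op b (op b a) = a)
    {ω ω' : Set (Sym2 Pt)} {x y : ℤ}
    (hd : MoveData ω ω' (x, y, 0) (x + 1, y, 0) (x + 1, y, 1) (x, y, 1)) {r : Pt}
    (hr : vxSq x y r) (hrV : Vtx ω r) : Transfer op ω ω' (PhiVx x y r) where
  map c hc := vx_move h1 h2 hd hc hr hrV
  inv c hc u hu := by
    unfold PhiVx
    by_cases hu' : vxSq x y u
    · rw [if_pos hu', if_pos hr]
      exact (vx_const h1 h2 hd hc hr hrV hu' hu).symm
    · rw [if_neg hu', if_neg hu']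
  congr c1 c2 h12 u hu := by
    unfold PhiVx
    by_cases hu' : vxSq x y u
    · rw [if_pos hu', if_pos hu']
      exact h12 r hrV
    · have huV : Vtx ω u := by
        rcases hd.vtx_of_vtx hu with h | h
        · exact h
        · exact absurd h hu'
      rw [if_neg hu', if_neg hu', h12 u huV]
  const k := by
    funext u
    unfold PhiVx
    split_ifs <;> rfl

theorem transfer_vy (h1 : ∀ a, op a a = a) (h2 : ∀ b a, op b (op b a) = a)
    {ω ω' : Set (Sym2 Pt)} {x y : ℤ}
    (hd : MoveData ω ω' (x, y, 0) (x, y + 1, 0) (x, y + 1, 1) (x, y, 1)) {r : Pt}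
    (hr : vySq x y r) (hrV : Vtx ω r) : Transfer op ω ω' (PhiVy x y r) where
  map c hc := vy_move h1 h2 hd hc hr hrV
  inv c hc u hu := by
    unfold PhiVy
    by_cases hu' : vySq x y u
    · rw [if_pos hu', if_pos hr]
      exact (vy_const h1 h2 hd hc hr hrV hu' hu).symm
    · rw [if_neg hu', if_neg hu']
  congr c1 c2 h12 u hu := by
    unfold PhiVy
    by_cases hu' : vySq x y u
    · rw [if_pos hu', if_pos hu']
      exact h12 r hrV
    · have huV : Vtx ω u := by
        rcases hd.vtx_of_vtx hu with h | h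
        · exact h
        · exact absurd h hu'
      rw [if_neg hu', if_neg hu', h12 u huV]
  const k := by
    funext u
    unfold PhiVy
    split_ifs <;> rfl

theorem transfer_low (h1 : ∀ a, op a a = a) (h2 : ∀ b a, op b (op b a) = a)
    {ω ω' : Set (Sym2 Pt)} {x y : ℤ}
    (hd : MoveData ω ω' (x, y, 0) (x + 1, y, 0) (x + 1, y + 1, 0) (x, y + 1, 0)) {r : Pt}
    (hr : lowSq x y r) (hrV : Vtx ω r) : Transfer op ω ω' (PhiLow op ω x y r) where
  map c hc := low_move h1 h2 hd hc hr hrV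
  inv c hc u hu := by
    obtain ⟨s, hs, -⟩ := low_const h1 h2 hd hc
    have hm : PhiLow op ω x y r c (x + 1, y + 1, 1) = c (x + 1, y + 1, 1) := by
      unfold PhiLow
      rw [if_neg]
      unfold lowSq
      simp
    have hrr : PhiLow op ω x y r c r = c r := by
      unfold PhiLow
      rw [if_pos hr, nrm_nrm h2]
    by_cases hu' : lowSq x y u
    · have e1 : PhiLow op ω x y r (PhiLow op ω x y r c) u
          = nrm op ω x y (c (x + 1, y + 1, 1)) u (nrm op ω x y (c (x + 1, y + 1, 1)) r (c r)) := by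
        conv_lhs => unfold PhiLow
        rw [if_pos hu']
        show nrm op ω x y (PhiLow op ω x y r c (x + 1, y + 1, 1)) u
          (nrm op ω x y (PhiLow op ω x y r c (x + 1, y + 1, 1)) r (PhiLow op ω x y r c r)) = _
        rw [hm, hrr]
      rw [e1, hs r hr hrV, ← hs u hu' hu, nrm_nrm h2]
    · unfold PhiLow
      rw [if_neg hu', if_neg hu']
  congr c1 c2 h12 u hu := by
    -- the colour of the centre only matters when the centre is on the polygon
    have hnrm : ∀ (w : Pt) (v : X), nrm op ω x y (c1 (x + 1, y + 1, 1)) w v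
        = nrm op ω x y (c2 (x + 1, y + 1, 1)) w v := by
      intro w v
      have htw : ∀ (q : Prop) (v : X), (q → Vtx ω (x + 1, y + 1, 1)) →
          tw op (c1 (x + 1, y + 1, 1)) q v = tw op (c2 (x + 1, y + 1, 1)) q v := by
        intro q v hq
        by_cases hqq : q
        · rw [tw_pos _ hqq, tw_pos _ hqq, h12 _ (hq hqq)]
        · rw [tw_neg _ hqq, tw_neg _ hqq]
      have v1 : q1 ω x y → Vtx ω (x + 1, y + 1, 1) := fun h =>
        ⟨(x + 1, y, 1), by rw [Sym2.eq_swap]; exact h⟩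
      have v2 : q2 ω x y → Vtx ω (x + 1, y + 1, 1) := fun h => ⟨_, h⟩
      have v4 : q4 ω x y → Vtx ω (x + 1, y + 1, 1) := fun h =>
        ⟨(x, y + 1, 1), by rw [Sym2.eq_swap]; exact h⟩
      unfold nrm
      split_ifs
      · exact htw _ _ v1
      · rw [htw _ _ v2, htw _ _ v1]
      · exact htw _ _ v4
      · rfl
    unfold PhiLow
    by_cases hu' : lowSq x y u
    · rw [if_pos hu', if_pos hu', hnrm, hnrm, h12 r hrV]
    · have huV : Vtx ω u := by
        rcases hd.vtx_of_vtx hu with h | h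
        · exact h
        · exact absurd h hu'
      rw [if_neg hu', if_neg hu', h12 u huV]
  const k := by
    funext u
    unfold PhiLow
    split_ifs
    · rw [nrm_self h1, nrm_self h1]
    · rfl

theorem PhiLow_congr {ω ω' : Set (Sym2 Pt)} {x y : ℤ}
    (hd : MoveData ω ω' (x, y, 0) (x + 1, y, 0) (x + 1, y + 1, 0) (x, y + 1, 0)) (r : Pt) :
    PhiLow op ω' x y r = PhiLow op ω x y r := by
  have e1 : q1 ω' x y = q1 ω x y := propext (low_other hd _ _ _)
  have e2 : q2 ω' x y = q2 ω x y := propext (low_other hd _ _ _)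
  have e4 : q4 ω' x y = q4 ω x y := propext (low_other hd _ _ _)
  funext c u
  unfold PhiLow nrm
  rw [e1, e2, e4]

/-- Every elementary move in the slab of width one transports colourings, in both directions. -/
theorem exists_transfer (h1 : ∀ a, op a a = a) (h2 : ∀ b a, op b (op b a) = a)
    {ω ω' : Set (Sym2 Pt)} (h : ElemMove 1 ω ω') :
    ∃ Φ, Transfer op ω ω' Φ ∧ Transfer op ω' ω Φ := by
  -- every edge of the square lies in one of the two polygons
  have hslab : ∀ {A B C D : Pt}, MoveData ω ω' A B C D → (0 ≤ A.2.2 ∧ A.2.2 ≤ 1) ∧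
      (0 ≤ C.2.2 ∧ C.2.2 ≤ 1) := by
    intro A B C D hd
    have d1 := hd.diff s(A, B)
    have d3 := hd.diff s(C, D)
    simp only [true_or, or_true, iff_true] at d1 d3
    constructor
    · by_cases e1 : s(A, B) ∈ ω
      · exact hd.good.slab _ _ e1
      · exact hd.good'.slab _ _ (d1.mpr e1)
    · by_cases e3 : s(C, D) ∈ ω
      · exact hd.good.slab _ _ e3
      · exact hd.good'.slab _ _ (d3.mpr e3)
  obtain ⟨x, y, z, hd | hd | hd⟩ := h.cases
  · have hz := (hslab hd).1
    simp only at hz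
    rcases (by omega : z = 0 ∨ z = 1) with rfl | rfl
    · obtain ⟨r, hr, hrV, hrV'⟩ := hd.exists_corner
      refine ⟨PhiLow op ω x y r, transfer_low h1 h2 hd hr hrV, ?_⟩
      have := transfer_low h1 h2 hd.symm hr hrV'
      rwa [PhiLow_congr hd] at this
    · obtain ⟨r, hr, hrV, hrV'⟩ := hd.exists_corner
      exact ⟨PhiUp op x y r, transfer_up h1 h2 hd hr hrV, transfer_up h1 h2 hd.symm hr hrV'⟩
  · have hz := hslab hd
    simp only at hz
    obtain rfl : z = 0 := by omega
    obtain ⟨r, hr, hrV, hrV'⟩ := hd.exists_corner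
    exact ⟨PhiVx x y r, transfer_vx h1 h2 hd hr hrV, transfer_vx h1 h2 hd.symm hr hrV'⟩
  · have hz := hslab hd
    simp only at hz
    obtain rfl : z = 0 := by omega
    obtain ⟨r, hr, hrV, hrV'⟩ := hd.exists_corner
    exact ⟨PhiVy x y r, transfer_vy h1 h2 hd hr hrV, transfer_vy h1 h2 hd.symm hr hrV'⟩

/-- The edge set has a colouring that is not constant on its vertices. -/
def HasNonconst (op : X → X → X) (ω : Set (Sym2 Pt)) : Prop :=
  ∃ c, IsColoring op ω c ∧ ∃ u v, Vtx ω u ∧ Vtx ω v ∧ c u ≠ c v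

theorem Transfer.hasNonconst {ω ω' : Set (Sym2 Pt)} {Φ : (Pt → X) → (Pt → X)}
    (h : Transfer op ω ω' Φ) (h' : Transfer op ω' ω Φ) (hn : HasNonconst op ω) :
    HasNonconst op ω' := by
  obtain ⟨c, hc, u, v, hu, hv, huv⟩ := hn
  refine ⟨Φ c, h.map c hc, ?_⟩
  by_contra hcon
  push Not at hcon
  apply huv
  by_cases hne : ∃ w, Vtx ω' w
  · obtain ⟨w, hw⟩ := hne
    have hconst : ∀ a, Vtx ω' a → Φ c a = (fun _ => Φ c w) a := fun a ha => hcon a w ha hw
    have key : ∀ a, Vtx ω a → c a = Φ c w := by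
      intro a ha
      rw [← h.inv c hc a ha, h'.congr _ _ hconst a ha, h.const]
    rw [key u hu, key v hv]
  · push Not at hne
    have key : ∀ a, Vtx ω a → c a = c u := by
      intro a ha
      rw [← h.inv c hc a ha, h'.congr (Φ c) (fun _ => c u) (fun b hb => absurd hb (hne b)) a ha,
        h.const]
    exact (key v hv).symm

theorem ElemMove.hasNonconst_iff (h1 : ∀ a, op a a = a) (h2 : ∀ b a, op b (op b a) = a)
    {ω ω' : Set (Sym2 Pt)} (h : ElemMove 1 ω ω') : HasNonconst op ω ↔ HasNonconst op ω' := by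
  obtain ⟨Φ, hΦ, hΦ'⟩ := exists_transfer h1 h2 h
  exact ⟨hΦ.hasNonconst hΦ', hΦ'.hasNonconst hΦ⟩

theorem SameClass.hasNonconst_iff (h1 : ∀ a, op a a = a) (h2 : ∀ b a, op b (op b a) = a)
    {ω ω' : Set (Sym2 Pt)} (h : SameClass 1 ω ω') : HasNonconst op ω ↔ HasNonconst op ω' := by
  induction h with
  | rel _ _ h => exact h.hasNonconst_iff h1 h2
  | refl _ => exact Iff.rfl
  | symm _ _ _ ih => exact ih.symm
  | trans _ _ _ _ _ ih1 ih2 => exact ih1.trans ih2

/-- The set of colourings, as functions on the vertices of the edge set. -/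
def ColSet (op : X → X → X) (ω : Set (Sym2 Pt)) : Set ({u // Vtx ω u} → X) :=
  {f | ∃ c, IsColoring op ω c ∧ ∀ u, c u.1 = f u}

/-- The number of colourings. -/
noncomputable def numCol (op : X → X → X) (ω : Set (Sym2 Pt)) : ℕ := (ColSet op ω).ncard

theorem ElemMove.numCol_eq (h1 : ∀ a, op a a = a) (h2 : ∀ b a, op b (op b a) = a)
    {ω ω' : Set (Sym2 Pt)} (h : ElemMove 1 ω ω') : numCol op ω = numCol op ω' := by
  obtain ⟨Φ, hΦ, hΦ'⟩ := exists_transfer h1 h2 h
  refine Set.ncard_congr (fun f hf => fun u => Φ (Classical.choose hf) u.1) ?_ ?_ ?_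
  · intro f hf
    exact ⟨Φ (Classical.choose hf), hΦ.map _ (Classical.choose_spec hf).1, fun u => rfl⟩
  · intro f g hf hg hfg
    funext u
    rw [← (Classical.choose_spec hf).2 u, ← (Classical.choose_spec hg).2 u,
      ← hΦ.inv _ (Classical.choose_spec hf).1 u.1 u.2,
      ← hΦ.inv _ (Classical.choose_spec hg).1 u.1 u.2]
    exact hΦ'.congr _ _ (fun w hw => congrFun hfg ⟨w, hw⟩) u.1 u.2
  · rintro g ⟨c', hc', hg⟩
    have hf : (fun u : {u // Vtx ω u} => Φ c' u.1) ∈ ColSet op ω :=
      ⟨Φ c', hΦ'.map c' hc', fun u => rfl⟩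
    refine ⟨fun u => Φ c' u.1, hf, ?_⟩
    funext u
    have e1 : Φ (Classical.choose hf) u.1 = Φ (Φ c') u.1 :=
      hΦ.congr _ _ (fun w hw => (Classical.choose_spec hf).2 ⟨w, hw⟩) u.1 u.2
    rw [e1, hΦ'.inv c' hc' u.1 u.2, hg]

theorem SameClass.numCol_eq (h1 : ∀ a, op a a = a) (h2 : ∀ b a, op b (op b a) = a)
    {ω ω' : Set (Sym2 Pt)} (h : SameClass 1 ω ω') : numCol op ω = numCol op ω' := by
  induction h with
  | rel _ _ h => exact h.numCol_eq h1 h2
  | refl _ => rfl
  | symm _ _ _ ih => exact ih.symm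
  | trans _ _ _ _ _ ih1 ih2 => exact ih1.trans ih2

end Pool.Agent.Lib.MP_dd2c10_pr
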