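import Mathlib
import Pool.Agent.Lib.MP_dd2c10_pr.Invariant

/-!
# Polygons given by lists of vertices, and the half turn of the slab
-/

namespace Pool.Agent.Lib.MP_dd2c10_pr

variable {X : Type*} {op : X → X → X}

/-- The edges joining consecutive members of a list of points. -/
def edgeList (l : List Pt) : List (Sym2 Pt) := List.zipWith (fun x y => s(x, y)) l l.tail

/-- The set of edges joining consecutive members of a list of points. -/
def edgeSet (l : List Pt) : Set (Sym2 Pt) := {e | e ∈ edgeList l}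

theorem mem_edgeSet {l : List Pt} {e : Sym2 Pt} : e ∈ edgeSet l ↔ e ∈ edgeList l := Iff.rfl

instance : DecidableRel cubic.Adj := fun u v => by
  unfold cubic
  simp only
  infer_instance

/-- A list of consecutive neighbours gives a walk. -/
theorem exists_walk_support (L : List Pt) (hL : L ≠ []) (hchain : L.IsChain cubic.Adj)
    (a v : Pt) (ha : L.head hL = a) (hv : L.getLast hL = v) :
    ∃ p : cubic.Walk a v, p.support = L := by
  subst ha hv
  exact ⟨SimpleGraph.Walk.ofSupport L hL hchain, SimpleGraph.Walk.support_ofSupport ..⟩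

/-- A closed list of points, without repetition apart from the end points and consisting of
consecutive neighbours, gives a polygon. -/
theorem isPolygon_of_list {w : ℤ} (v a : Pt) (l : List Pt)
    (hchain : (v :: (a :: l ++ [v])).IsChain cubic.Adj) (hnodup : (a :: l ++ [v]).Nodup)
    (hne : s(v, a) ∉ edgeList (a :: l ++ [v]))
    (hslab : ∀ x ∈ a :: l ++ [v], 0 ≤ x.2.2 ∧ x.2.2 ≤ w) :
    IsPolygon w (edgeSet (v :: (a :: l ++ [v]))) := by
  have hL : (a :: l ++ [v]) ≠ [] := by simp
  have hadj : cubic.Adj v a := by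
    have := hchain
    rw [List.cons_append, List.isChain_cons_cons] at this
    exact this.1
  obtain ⟨p, hsup⟩ := exists_walk_support (a :: l ++ [v]) hL hchain.of_cons a v (by simp)
    (by simp)
  have hedges : p.edges = edgeList (a :: l ++ [v]) := by
    rw [SimpleGraph.Walk.edges_eq_zipWith_support, hsup]
    rfl
  refine ⟨v, SimpleGraph.Walk.cons hadj p, ?_, ?_, ?_⟩
  · rw [SimpleGraph.Walk.cons_isCycle_iff, SimpleGraph.Walk.isPath_def, hsup, hedges]
    exact ⟨hnodup, hne⟩
  · intro x hx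
    rw [SimpleGraph.Walk.support_cons, hsup] at hx
    rcases List.mem_cons.mp hx with rfl | hx
    · exact hslab _ (by simp)
    · exact hslab x hx
  · ext e
    rw [Set.mem_ofPred_eq, SimpleGraph.Walk.edges_cons, hedges, mem_edgeSet]
    rfl

/-- The checks for a colouring at an oriented edge. -/
def check (op : X → X → X) (l : List (Sym2 Pt)) (c : Pt → X) (u v : Pt) : Prop :=
  (u.2.2 = 0 → v = (u.1, u.2.1, 1) → c u = c v) ∧
  (u.2.2 = 1 → v = (u.1 + 1, u.2.1, 1) → c u = c v) ∧
  (u.2.2 = 1 → v = (u.1, u.2.1 + 1, 1) → c u = c v) ∧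
  (u.2.2 = 0 → v = (u.1 + 1, u.2.1, 0) →
    if s(((v.1, v.2.1, 1) : Pt), ((v.1, v.2.1 + 1, 1) : Pt)) ∈ l
    then c v = op (c (v.1, v.2.1, 1)) (c u) else c v = c u) ∧
  (u.2.2 = 0 → v = (u.1, u.2.1 + 1, 0) →
    if s(((v.1, v.2.1, 1) : Pt), ((v.1 + 1, v.2.1, 1) : Pt)) ∈ l
    then c v = op (c (v.1, v.2.1, 1)) (c u) else c v = c u)

instance [DecidableEq X] (l : List (Sym2 Pt)) (c : Pt → X) (u v : Pt) :
    Decidable (check op l c u v) := by unfold check; infer_instance

/-- Colourings of a polygon given by a list can be checked edge by edge. -/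
theorem isColoring_of_check (L : List Pt) (c : Pt → X)
    (h : ∀ p ∈ List.zip L L.tail, check op (edgeList L) c p.1 p.2 ∧
      check op (edgeList L) c p.2 p.1) : IsColoring op (edgeSet L) c := by
  have key : ∀ u v : Pt, s(u, v) ∈ edgeSet L → check op (edgeList L) c u v := by
    intro u v huv
    rw [mem_edgeSet, edgeList, ← List.map_uncurry_zip_eq_zipWith, List.mem_map] at huv
    obtain ⟨⟨a, b⟩, hab, hs⟩ := huv
    simp only [Function.uncurry_apply_pair] at hs
    have hh := h (a, b) hab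
    rcases Sym2.eq_iff.mp hs with ⟨rfl, rfl⟩ | ⟨rfl, rfl⟩
    · exact hh.1
    · exact hh.2
  refine ⟨?_, ?_, ?_, ?_, ?_, ?_, ?_⟩
  · intro a b hab
    exact (key _ _ hab).1 rfl rfl
  · intro a b hab
    exact (key _ _ hab).2.1 rfl rfl
  · intro a b hab
    exact (key _ _ hab).2.2.1 rfl rfl
  · intro a b hab hcr
    have := (key _ _ hab).2.2.2.1 rfl rfl
    rw [if_pos (show s(((a + 1, b, 1) : Pt), ((a + 1, b + 1, 1) : Pt)) ∈ edgeList L from hcr)]
      at this
    exact this
  · intro a b hab hcr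
    have := (key _ _ hab).2.2.2.1 rfl rfl
    rw [if_neg (show ¬ s(((a + 1, b, 1) : Pt), ((a + 1, b + 1, 1) : Pt)) ∈ edgeList L from hcr)]
      at this
    exact this
  · intro a b hab hcr
    have := (key _ _ hab).2.2.2.2 rfl rfl
    rw [if_pos (show s(((a, b + 1, 1) : Pt), ((a + 1, b + 1, 1) : Pt)) ∈ edgeList L from hcr)]
      at this
    exact this
  · intro a b hab hcr
    have := (key _ _ hab).2.2.2.2 rfl rfl
    rw [if_neg (show ¬ s(((a, b + 1, 1) : Pt), ((a + 1, b + 1, 1) : Pt)) ∈ edgeList L from hcr)]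
      at this
    exact this

/-- The vertices of a polygon given by a list. -/
theorem vtx_mem_of_edgeSet {L : List Pt} {u : Pt} (h : Vtx (edgeSet L) u) : u ∈ L := by
  obtain ⟨v, hv⟩ := h
  rw [mem_edgeSet, edgeList, ← List.map_uncurry_zip_eq_zipWith, List.mem_map] at hv
  obtain ⟨⟨a, b⟩, hab, hs⟩ := hv
  simp only [Function.uncurry_apply_pair] at hs
  have h2 := List.of_mem_zip hab
  rcases Sym2.eq_iff.mp hs with ⟨rfl, rfl⟩ | ⟨rfl, rfl⟩
  · exact h2.1
  · exact List.mem_of_mem_tail h2.2

/-- The half turn of the slab of width one about the line `y = 0`, `z = 1 / 2`. -/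
def halfTurn (u : Pt) : Pt := (u.1, -u.2.1, 1 - u.2.2)

theorem edgeList_map (L : List Pt) :
    edgeList (L.map halfTurn) = (edgeList L).map (Sym2.map halfTurn) := by
  unfold edgeList
  rw [← List.map_tail, List.zipWith_map, List.map_zipWith]
  rfl

/-- Rotation of space about the line `y = 0`, `z = 1 / 2` by the angle `π t`. -/
noncomputable def rotMap (t : ℝ) (p : ℝ × ℝ × ℝ) : ℝ × ℝ × ℝ :=
  (p.1, p.2.1 * Real.cos (Real.pi * t) - (p.2.2 - 1 / 2) * Real.sin (Real.pi * t),
    1 / 2 + p.2.1 * Real.sin (Real.pi * t) + (p.2.2 - 1 / 2) * Real.cos (Real.pi * t))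

theorem rotMap_neg (t : ℝ) (p : ℝ × ℝ × ℝ) : rotMap (-t) (rotMap t p) = p := by
  have h := Real.sin_sq_add_cos_sq (Real.pi * t)
  unfold rotMap
  rw [mul_neg, Real.cos_neg, Real.sin_neg]
  ext
  · rfl
  · simp only
    linear_combination p.2.1 * h
  · simp only
    linear_combination (p.2.2 - 1 / 2) * h

theorem rotMap_continuous : Continuous (fun q : ℝ × (ℝ × ℝ × ℝ) => rotMap q.1 q.2) := by
  unfold rotMap
  fun_prop

theorem rotMap_isHomeomorph (t : ℝ) : IsHomeomorph (rotMap t) := by
  have hc : ∀ s, Continuous (rotMap s) := fun s =>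
    rotMap_continuous.comp (Continuous.prodMk_right s)
  let e : (ℝ × ℝ × ℝ) ≃ₜ (ℝ × ℝ × ℝ) :=
    { toFun := rotMap t
      invFun := rotMap (-t)
      left_inv := rotMap_neg t
      right_inv := fun p => by
        have := rotMap_neg (-t) p
        rwa [neg_neg] at this
      continuous_toFun := hc t
      continuous_invFun := hc (-t) }
  exact e.isHomeomorph

theorem rotMap_one (p : ℝ × ℝ × ℝ) : rotMap 1 p = (p.1, -p.2.1, 1 - p.2.2) := by
  unfold rotMap
  rw [mul_one, Real.cos_pi, Real.sin_pi]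
  ext <;> simp only <;> ring

theorem rotMap_one_toSpace (u : Pt) : rotMap 1 (toSpace u) = toSpace (halfTurn u) := by
  rw [rotMap_one]
  unfold toSpace halfTurn
  ext <;> push_cast <;> ring

theorem rotMap_one_segment (a b : ℝ × ℝ × ℝ) :
    rotMap 1 '' segment ℝ a b = segment ℝ (rotMap 1 a) (rotMap 1 b) := by
  have key : ∀ (x y : ℝ) (a b : ℝ × ℝ × ℝ), x + y = 1 →
      rotMap 1 (x • a + y • b) = x • rotMap 1 a + y • rotMap 1 b := by
    intro x y a b hxy
    rw [rotMap_one, rotMap_one, rotMap_one]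
    ext
    · simp
    · simp; ring
    · simp only [Prod.snd_add, Prod.smul_snd, smul_eq_mul]
      linear_combination (-1 : ℝ) * hxy
  ext p
  constructor
  · rintro ⟨q, ⟨x, y, hx, hy, hxy, rfl⟩, rfl⟩
    exact ⟨x, y, hx, hy, hxy, (key x y a b hxy).symm⟩
  · rintro ⟨x, y, hx, hy, hxy, rfl⟩
    exact ⟨x • a + y • b, ⟨x, y, hx, hy, hxy, rfl⟩, key x y a b hxy⟩

/-- A polygon and its image under the half turn have the same knot type. -/
theorem sameKnotType_halfTurn (L : List Pt) :
    SameKnotType (edgeSet L) (edgeSet (L.map halfTurn)) := by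
  refine ⟨rotMap, rotMap_continuous, rotMap_isHomeomorph, ?_, ?_⟩
  · funext p
    unfold rotMap
    ext <;> simp
  · ext p
    constructor
    · rintro ⟨q, ⟨u, v, huv, hq⟩, rfl⟩
      refine ⟨halfTurn u, halfTurn v, ?_, ?_⟩
      · rw [mem_edgeSet, edgeList_map, List.mem_map]
        exact ⟨s(u, v), huv, rfl⟩
      · rw [← rotMap_one_toSpace, ← rotMap_one_toSpace, ← rotMap_one_segment]
        exact ⟨q, hq, rfl⟩
    · rintro ⟨u, v, huv, hp⟩
      rw [mem_edgeSet, edgeList_map, List.mem_map] at huv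
      obtain ⟨e, he, hs⟩ := huv
      induction e with | _ a b => ?_
      rw [Sym2.map_mk] at hs
      have hp' : p ∈ segment ℝ (toSpace (halfTurn a)) (toSpace (halfTurn b)) := by
        rcases Sym2.eq_iff.mp hs with ⟨rfl, rfl⟩ | ⟨rfl, rfl⟩
        · exact hp
        · rw [segment_symm]; exact hp
      rw [← rotMap_one_toSpace, ← rotMap_one_toSpace, ← rotMap_one_segment] at hp'
      obtain ⟨q, hq, rfl⟩ := hp'
      exact ⟨q, ⟨a, b, he, hq⟩, rfl⟩

end Pool.Agent.Lib.MP_dd2c10_pr
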