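import Mathlib
import Pool.Agent.Lib.MP_dd2c10_pr.Lists

/-!
# Two polygons of the same knot type in different classes
-/

namespace Pool.Agent.Lib.MP_dd2c10_pr

/-- The operation used to distinguish the two polygons: `0` acts trivially, `1` exchanges `0` and
`2`, and `2` exchanges `0` and `1`. -/
def op3 (b a : Fin 3) : Fin 3 := (![![0, 1, 2], ![2, 1, 0], ![1, 0, 2]] : Fin 3 → Fin 3 → Fin 3) b a

theorem op3_idem : ∀ a, op3 a a = a := by decide

theorem op3_inv : ∀ b a, op3 b (op3 b a) = a := by decide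

/-- The successive vertices of the first polygon. -/
def polyP : List Pt :=
  [(-1, -1, 0), (-1, -1, 1), (0, -1, 1), (1, -1, 1), (1, -1, 0), (1, 0, 0), (2, 0, 0), (2, 1, 0),
   (2, 2, 0), (2, 2, 1), (1, 2, 1), (0, 2, 1), (0, 1, 1), (0, 1, 0), (0, 0, 0), (0, -1, 0),
   (0, -2, 0), (1, -2, 0), (2, -2, 0), (2, -1, 0), (2, -1, 1), (2, 0, 1), (1, 0, 1), (0, 0, 1),
   (-1, 0, 1), (-2, 0, 1), (-2, -1, 1), (-2, -2, 1), (-1, -2, 1), (0, -2, 1), (1, -2, 1),
   (2, -2, 1), (3, -2, 1), (3, -1, 1), (3, 0, 1), (3, 1, 1), (2, 1, 1), (1, 1, 1), (1, 1, 0),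
   (1, 2, 0), (0, 2, 0), (-1, 2, 0), (-1, 1, 0), (-1, 0, 0), (-1, -1, 0)]

/-- The successive vertices of the second polygon. -/
def polyQ : List Pt :=
  [(-1, 1, 1), (-1, 1, 0), (0, 1, 0), (1, 1, 0), (1, 1, 1), (1, 0, 1), (2, 0, 1), (2, -1, 1),
   (2, -2, 1), (2, -2, 0), (1, -2, 0), (0, -2, 0), (0, -1, 0), (0, -1, 1), (0, 0, 1), (0, 1, 1),
   (0, 2, 1), (1, 2, 1), (2, 2, 1), (2, 1, 1), (2, 1, 0), (2, 0, 0), (1, 0, 0), (0, 0, 0),
   (-1, 0, 0), (-2, 0, 0), (-2, 1, 0), (-2, 2, 0), (-1, 2, 0), (0, 2, 0), (1, 2, 0), (2, 2, 0),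
   (3, 2, 0), (3, 1, 0), (3, 0, 0), (3, -1, 0), (2, -1, 0), (1, -1, 0), (1, -1, 1), (1, -2, 1),
   (0, -2, 1), (-1, -2, 1), (-1, -1, 1), (-1, 0, 1), (-1, 1, 1)]

theorem polyQ_eq : polyP.map halfTurn = polyQ := by decide +kernel

theorem isPolygon_P : IsPolygon 1 (edgeSet polyP) :=
  isPolygon_of_list (w := 1) (-1, -1, 0) (-1, -1, 1) (polyP.tail.tail.dropLast) (by decide +kernel)
    (by decide +kernel) (by decide +kernel) (by decide +kernel)

theorem isPolygon_Q : IsPolygon 1 (edgeSet polyQ) :=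
  isPolygon_of_list (w := 1) (-1, 1, 1) (-1, 1, 0) (polyQ.tail.tail.dropLast) (by decide +kernel)
    (by decide +kernel) (by decide +kernel) (by decide +kernel)

/-- The points of colour one. -/
def colOne : List Pt :=
  [(-1, -1, 0), (-1, -1, 1), (0, -1, 1), (1, -1, 1), (1, -1, 0), (2, 1, 0), (2, 2, 0), (2, 2, 1),
   (1, 2, 1), (0, 2, 1), (0, 1, 1), (0, 1, 0), (0, 0, 0)]

/-- The points of colour two. -/
def colTwo : List Pt :=
  [(0, -2, 0), (1, -2, 0), (2, -2, 0), (2, -1, 0), (2, -1, 1), (2, 0, 1), (1, 0, 1), (0, 0, 1),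
   (-1, 0, 1), (-2, 0, 1), (-2, -1, 1), (-2, -2, 1), (-1, -2, 1), (0, -2, 1), (1, -2, 1),
   (2, -2, 1), (3, -2, 1), (3, -1, 1), (3, 0, 1), (3, 1, 1), (2, 1, 1), (1, 1, 1), (1, 1, 0)]

/-- A colouring of the first polygon which is not constant. -/
def colP (u : Pt) : Fin 3 := if u ∈ colOne then 1 else if u ∈ colTwo then 2 else 0

theorem isColoring_P : IsColoring op3 (edgeSet polyP) colP :=
  isColoring_of_check polyP colP (by decide +kernel)

theorem hasNonconst_P : HasNonconst op3 (edgeSet polyP) := by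
  refine ⟨colP, isColoring_P, (-1, -1, 0), (1, 0, 0), ⟨(-1, -1, 1), ?_⟩, ⟨(2, 0, 0), ?_⟩, ?_⟩
  · rw [mem_edgeSet]; decide +kernel
  · rw [mem_edgeSet]; decide +kernel
  · decide +kernel

theorem mem_Q {e : Sym2 Pt} (h : e ∈ edgeList polyQ) : e ∈ edgeSet polyQ := h

theorem finCase : ∀ x0 x1 x2 x3 x4 x5 x6 : Fin 3, x1 = op3 x3 x0 → x1 = op3 x1 x2 → x2 = op3 x0 x3 → x3 = op3 x1 x4 → x4 = op3 x3 x5 → x5 = op3 x0 x6 → x6 = op3 x1 x0 → x1 = x0 ∧ x2 = x0 ∧ x3 = x0 ∧ x4 = x0 ∧ x5 = x0 ∧ x6 = x0 := by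
  decide

theorem const_Q (c : Pt → Fin 3) (hc : IsColoring op3 (edgeSet polyQ) c) :
    ∀ u ∈ polyQ, c u = c (1, -1, 0) := by
  have d0 : c (-1, 1, 0) = c (-1, 1, 1) := by
    simpa using hc.vert (-1) (1) (mem_Q (by decide +kernel))
  have e0 : c (-1, 1, 0) = c (-1, 1, 1) := d0
  have e1 : c (0, 1, 0) = op3 (c (0, 1, 1)) (c (-1, 1, 0)) := by
    simpa using hc.lx1 (-1) (1) (mem_Q (by decide +kernel)) (mem_Q (by decide +kernel))
  have d2 : c (1, 1, 0) = c (0, 1, 0) := by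
    simpa using hc.lx2 (0) (1) (mem_Q (by decide +kernel))
      (by rw [mem_edgeSet]; decide +kernel)
  have e2 : c (1, 1, 0) = c (0, 1, 0) := d2
  have d3 : c (1, 1, 0) = c (1, 1, 1) := by
    simpa using hc.vert (1) (1) (mem_Q (by decide +kernel))
  have e3 : c (1, 1, 1) = c (1, 1, 0) := d3.symm
  have d4 : c (1, 0, 1) = c (1, 1, 1) := by
    simpa using hc.uy (1) (0) (mem_Q (by decide +kernel))
  have e4 : c (1, 0, 1) = c (1, 1, 1) := d4
  have d5 : c (1, 0, 1) = c (2, 0, 1) := by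
    simpa using hc.ux (1) (0) (mem_Q (by decide +kernel))
  have e5 : c (2, 0, 1) = c (1, 0, 1) := d5.symm
  have d6 : c (2, -1, 1) = c (2, 0, 1) := by
    simpa using hc.uy (2) (-1) (mem_Q (by decide +kernel))
  have e6 : c (2, -1, 1) = c (2, 0, 1) := d6
  have d7 : c (2, -2, 1) = c (2, -1, 1) := by
    simpa using hc.uy (2) (-2) (mem_Q (by decide +kernel))
  have e7 : c (2, -2, 1) = c (2, -1, 1) := d7
  have d8 : c (2, -2, 0) = c (2, -2, 1) := by
    simpa using hc.vert (2) (-2) (mem_Q (by decide +kernel))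
  have e8 : c (2, -2, 0) = c (2, -2, 1) := d8
  have e9 : c (2, -2, 0) = op3 (c (2, -2, 1)) (c (1, -2, 0)) := by
    simpa using hc.lx1 (1) (-2) (mem_Q (by decide +kernel)) (mem_Q (by decide +kernel))
  have e10 : c (1, -2, 0) = op3 (c (1, -2, 1)) (c (0, -2, 0)) := by
    simpa using hc.lx1 (0) (-2) (mem_Q (by decide +kernel)) (mem_Q (by decide +kernel))
  have d11 : c (0, -1, 0) = c (0, -2, 0) := by
    simpa using hc.ly2 (0) (-2) (mem_Q (by decide +kernel))
      (by rw [mem_edgeSet]; decide +kernel)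
  have e11 : c (0, -1, 0) = c (0, -2, 0) := d11
  have d12 : c (0, -1, 0) = c (0, -1, 1) := by
    simpa using hc.vert (0) (-1) (mem_Q (by decide +kernel))
  have e12 : c (0, -1, 1) = c (0, -1, 0) := d12.symm
  have d13 : c (0, -1, 1) = c (0, 0, 1) := by
    simpa using hc.uy (0) (-1) (mem_Q (by decide +kernel))
  have e13 : c (0, 0, 1) = c (0, -1, 1) := d13.symm
  have d14 : c (0, 0, 1) = c (0, 1, 1) := by
    simpa using hc.uy (0) (0) (mem_Q (by decide +kernel))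
  have e14 : c (0, 1, 1) = c (0, 0, 1) := d14.symm
  have d15 : c (0, 1, 1) = c (0, 2, 1) := by
    simpa using hc.uy (0) (1) (mem_Q (by decide +kernel))
  have e15 : c (0, 2, 1) = c (0, 1, 1) := d15.symm
  have d16 : c (0, 2, 1) = c (1, 2, 1) := by
    simpa using hc.ux (0) (2) (mem_Q (by decide +kernel))
  have e16 : c (1, 2, 1) = c (0, 2, 1) := d16.symm
  have d17 : c (1, 2, 1) = c (2, 2, 1) := by
    simpa using hc.ux (1) (2) (mem_Q (by decide +kernel))
  have e17 : c (2, 2, 1) = c (1, 2, 1) := d17.symm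
  have d18 : c (2, 1, 1) = c (2, 2, 1) := by
    simpa using hc.uy (2) (1) (mem_Q (by decide +kernel))
  have e18 : c (2, 1, 1) = c (2, 2, 1) := d18
  have d19 : c (2, 1, 0) = c (2, 1, 1) := by
    simpa using hc.vert (2) (1) (mem_Q (by decide +kernel))
  have e19 : c (2, 1, 0) = c (2, 1, 1) := d19
  have d20 : c (2, 1, 0) = c (2, 0, 0) := by
    simpa using hc.ly2 (2) (0) (mem_Q (by decide +kernel))
      (by rw [mem_edgeSet]; decide +kernel)
  have e20 : c (2, 0, 0) = c (2, 1, 0) := d20.symm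
  have d21 : c (2, 0, 0) = c (1, 0, 0) := by
    simpa using hc.lx2 (1) (0) (mem_Q (by decide +kernel))
      (by rw [mem_edgeSet]; decide +kernel)
  have e21 : c (1, 0, 0) = c (2, 0, 0) := d21.symm
  have e22 : c (1, 0, 0) = op3 (c (1, 0, 1)) (c (0, 0, 0)) := by
    simpa using hc.lx1 (0) (0) (mem_Q (by decide +kernel)) (mem_Q (by decide +kernel))
  have e23 : c (0, 0, 0) = op3 (c (0, 0, 1)) (c (-1, 0, 0)) := by
    simpa using hc.lx1 (-1) (0) (mem_Q (by decide +kernel)) (mem_Q (by decide +kernel))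
  have e24 : c (-1, 0, 0) = op3 (c (-1, 0, 1)) (c (-2, 0, 0)) := by
    simpa using hc.lx1 (-2) (0) (mem_Q (by decide +kernel)) (mem_Q (by decide +kernel))
  have d25 : c (-2, 1, 0) = c (-2, 0, 0) := by
    simpa using hc.ly2 (-2) (0) (mem_Q (by decide +kernel))
      (by rw [mem_edgeSet]; decide +kernel)
  have e25 : c (-2, 1, 0) = c (-2, 0, 0) := d25
  have d26 : c (-2, 2, 0) = c (-2, 1, 0) := by
    simpa using hc.ly2 (-2) (1) (mem_Q (by decide +kernel))
      (by rw [mem_edgeSet]; decide +kernel)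
  have e26 : c (-2, 2, 0) = c (-2, 1, 0) := d26
  have d27 : c (-1, 2, 0) = c (-2, 2, 0) := by
    simpa using hc.lx2 (-2) (2) (mem_Q (by decide +kernel))
      (by rw [mem_edgeSet]; decide +kernel)
  have e27 : c (-1, 2, 0) = c (-2, 2, 0) := d27
  have d28 : c (0, 2, 0) = c (-1, 2, 0) := by
    simpa using hc.lx2 (-1) (2) (mem_Q (by decide +kernel))
      (by rw [mem_edgeSet]; decide +kernel)
  have e28 : c (0, 2, 0) = c (-1, 2, 0) := d28
  have d29 : c (1, 2, 0) = c (0, 2, 0) := by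
    simpa using hc.lx2 (0) (2) (mem_Q (by decide +kernel))
      (by rw [mem_edgeSet]; decide +kernel)
  have e29 : c (1, 2, 0) = c (0, 2, 0) := d29
  have d30 : c (2, 2, 0) = c (1, 2, 0) := by
    simpa using hc.lx2 (1) (2) (mem_Q (by decide +kernel))
      (by rw [mem_edgeSet]; decide +kernel)
  have e30 : c (2, 2, 0) = c (1, 2, 0) := d30
  have d31 : c (3, 2, 0) = c (2, 2, 0) := by
    simpa using hc.lx2 (2) (2) (mem_Q (by decide +kernel))
      (by rw [mem_edgeSet]; decide +kernel)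
  have e31 : c (3, 2, 0) = c (2, 2, 0) := d31
  have d32 : c (3, 2, 0) = c (3, 1, 0) := by
    simpa using hc.ly2 (3) (1) (mem_Q (by decide +kernel))
      (by rw [mem_edgeSet]; decide +kernel)
  have e32 : c (3, 1, 0) = c (3, 2, 0) := d32.symm
  have d33 : c (3, 1, 0) = c (3, 0, 0) := by
    simpa using hc.ly2 (3) (0) (mem_Q (by decide +kernel))
      (by rw [mem_edgeSet]; decide +kernel)
  have e33 : c (3, 0, 0) = c (3, 1, 0) := d33.symm
  have d34 : c (3, 0, 0) = c (3, -1, 0) := by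
    simpa using hc.ly2 (3) (-1) (mem_Q (by decide +kernel))
      (by rw [mem_edgeSet]; decide +kernel)
  have e34 : c (3, -1, 0) = c (3, 0, 0) := d34.symm
  have d35 : c (3, -1, 0) = c (2, -1, 0) := by
    simpa using hc.lx2 (2) (-1) (mem_Q (by decide +kernel))
      (by rw [mem_edgeSet]; decide +kernel)
  have e35 : c (2, -1, 0) = c (3, -1, 0) := d35.symm
  have e36 : c (2, -1, 0) = op3 (c (2, -1, 1)) (c (1, -1, 0)) := by
    simpa using hc.lx1 (1) (-1) (mem_Q (by decide +kernel)) (mem_Q (by decide +kernel))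
  have d37 : c (1, -1, 0) = c (1, -1, 1) := by
    simpa using hc.vert (1) (-1) (mem_Q (by decide +kernel))
  have e37 : c (1, -1, 1) = c (1, -1, 0) := d37.symm
  have d38 : c (1, -2, 1) = c (1, -1, 1) := by
    simpa using hc.uy (1) (-2) (mem_Q (by decide +kernel))
  have e38 : c (1, -2, 1) = c (1, -1, 1) := d38
  have d39 : c (0, -2, 1) = c (1, -2, 1) := by
    simpa using hc.ux (0) (-2) (mem_Q (by decide +kernel))
  have e39 : c (0, -2, 1) = c (1, -2, 1) := d39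
  have d40 : c (-1, -2, 1) = c (0, -2, 1) := by
    simpa using hc.ux (-1) (-2) (mem_Q (by decide +kernel))
  have e40 : c (-1, -2, 1) = c (0, -2, 1) := d40
  have d41 : c (-1, -2, 1) = c (-1, -1, 1) := by
    simpa using hc.uy (-1) (-2) (mem_Q (by decide +kernel))
  have e41 : c (-1, -1, 1) = c (-1, -2, 1) := d41.symm
  have d42 : c (-1, -1, 1) = c (-1, 0, 1) := by
    simpa using hc.uy (-1) (-1) (mem_Q (by decide +kernel))
  have e42 : c (-1, 0, 1) = c (-1, -1, 1) := d42.symm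
  have d43 : c (-1, 0, 1) = c (-1, 1, 1) := by
    simpa using hc.uy (-1) (0) (mem_Q (by decide +kernel))
  have e43 : c (-1, 1, 1) = c (-1, 0, 1) := d43.symm
  -- every vertex has the colour of the first vertex of its arc
  have f37 : c (1, -1, 0) = c (1, -1, 0) := rfl
  have f38 : c (1, -1, 1) = c (1, -1, 0) := e37.trans f37
  have f39 : c (1, -2, 1) = c (1, -1, 0) := e38.trans f38
  have f40 : c (0, -2, 1) = c (1, -1, 0) := e39.trans f39
  have f41 : c (-1, -2, 1) = c (1, -1, 0) := e40.trans f40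
  have f42 : c (-1, -1, 1) = c (1, -1, 0) := e41.trans f41
  have f43 : c (-1, 0, 1) = c (1, -1, 0) := e42.trans f42
  have f0 : c (-1, 1, 1) = c (1, -1, 0) := e43.trans f43
  have f1 : c (-1, 1, 0) = c (1, -1, 0) := e0.trans f0
  have f2 : c (0, 1, 0) = c (0, 1, 0) := rfl
  have f3 : c (1, 1, 0) = c (0, 1, 0) := e2.trans f2
  have f4 : c (1, 1, 1) = c (0, 1, 0) := e3.trans f3
  have f5 : c (1, 0, 1) = c (0, 1, 0) := e4.trans f4
  have f6 : c (2, 0, 1) = c (0, 1, 0) := e5.trans f5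
  have f7 : c (2, -1, 1) = c (0, 1, 0) := e6.trans f6
  have f8 : c (2, -2, 1) = c (0, 1, 0) := e7.trans f7
  have f9 : c (2, -2, 0) = c (0, 1, 0) := e8.trans f8
  have f10 : c (1, -2, 0) = c (1, -2, 0) := rfl
  have f11 : c (0, -2, 0) = c (0, -2, 0) := rfl
  have f12 : c (0, -1, 0) = c (0, -2, 0) := e11.trans f11
  have f13 : c (0, -1, 1) = c (0, -2, 0) := e12.trans f12
  have f14 : c (0, 0, 1) = c (0, -2, 0) := e13.trans f13
  have f15 : c (0, 1, 1) = c (0, -2, 0) := e14.trans f14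
  have f16 : c (0, 2, 1) = c (0, -2, 0) := e15.trans f15
  have f17 : c (1, 2, 1) = c (0, -2, 0) := e16.trans f16
  have f18 : c (2, 2, 1) = c (0, -2, 0) := e17.trans f17
  have f19 : c (2, 1, 1) = c (0, -2, 0) := e18.trans f18
  have f20 : c (2, 1, 0) = c (0, -2, 0) := e19.trans f19
  have f21 : c (2, 0, 0) = c (0, -2, 0) := e20.trans f20
  have f22 : c (1, 0, 0) = c (0, -2, 0) := e21.trans f21
  have f23 : c (0, 0, 0) = c (0, 0, 0) := rfl
  have f24 : c (-1, 0, 0) = c (-1, 0, 0) := rfl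
  have f25 : c (-2, 0, 0) = c (-2, 0, 0) := rfl
  have f26 : c (-2, 1, 0) = c (-2, 0, 0) := e25.trans f25
  have f27 : c (-2, 2, 0) = c (-2, 0, 0) := e26.trans f26
  have f28 : c (-1, 2, 0) = c (-2, 0, 0) := e27.trans f27
  have f29 : c (0, 2, 0) = c (-2, 0, 0) := e28.trans f28
  have f30 : c (1, 2, 0) = c (-2, 0, 0) := e29.trans f29
  have f31 : c (2, 2, 0) = c (-2, 0, 0) := e30.trans f30
  have f32 : c (3, 2, 0) = c (-2, 0, 0) := e31.trans f31
  have f33 : c (3, 1, 0) = c (-2, 0, 0) := e32.trans f32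
  have f34 : c (3, 0, 0) = c (-2, 0, 0) := e33.trans f33
  have f35 : c (3, -1, 0) = c (-2, 0, 0) := e34.trans f34
  have f36 : c (2, -1, 0) = c (-2, 0, 0) := e35.trans f35
  have key := finCase (c (1, -1, 0)) (c (0, 1, 0)) (c (1, -2, 0)) (c (0, -2, 0)) (c (0, 0, 0)) (c (-1, 0, 0)) (c (-2, 0, 0))
    (f2.symm.trans (e1.trans (congrArg₂ op3 f15 f1)))
    (f9.symm.trans (e9.trans (congrArg₂ op3 f8 f10)))
    (f10.symm.trans (e10.trans (congrArg₂ op3 f39 f11)))
    (f22.symm.trans (e22.trans (congrArg₂ op3 f5 f23)))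
    (f23.symm.trans (e23.trans (congrArg₂ op3 f14 f24)))
    (f24.symm.trans (e24.trans (congrArg₂ op3 f43 f25)))
    (f36.symm.trans (e36.trans (congrArg₂ op3 f7 f37)))
  obtain ⟨k1, k2, k3, k4, k5, k6⟩ := key
  unfold polyQ
  refine List.forall_mem_cons.mpr ⟨f0, ?_⟩
  refine List.forall_mem_cons.mpr ⟨f1, ?_⟩
  refine List.forall_mem_cons.mpr ⟨(f2.trans k1), ?_⟩
  refine List.forall_mem_cons.mpr ⟨(f3.trans k1), ?_⟩
  refine List.forall_mem_cons.mpr ⟨(f4.trans k1), ?_⟩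
  refine List.forall_mem_cons.mpr ⟨(f5.trans k1), ?_⟩
  refine List.forall_mem_cons.mpr ⟨(f6.trans k1), ?_⟩
  refine List.forall_mem_cons.mpr ⟨(f7.trans k1), ?_⟩
  refine List.forall_mem_cons.mpr ⟨(f8.trans k1), ?_⟩
  refine List.forall_mem_cons.mpr ⟨(f9.trans k1), ?_⟩
  refine List.forall_mem_cons.mpr ⟨(f10.trans k2), ?_⟩
  refine List.forall_mem_cons.mpr ⟨(f11.trans k3), ?_⟩
  refine List.forall_mem_cons.mpr ⟨(f12.trans k3), ?_⟩
  refine List.forall_mem_cons.mpr ⟨(f13.trans k3), ?_⟩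
  refine List.forall_mem_cons.mpr ⟨(f14.trans k3), ?_⟩
  refine List.forall_mem_cons.mpr ⟨(f15.trans k3), ?_⟩
  refine List.forall_mem_cons.mpr ⟨(f16.trans k3), ?_⟩
  refine List.forall_mem_cons.mpr ⟨(f17.trans k3), ?_⟩
  refine List.forall_mem_cons.mpr ⟨(f18.trans k3), ?_⟩
  refine List.forall_mem_cons.mpr ⟨(f19.trans k3), ?_⟩
  refine List.forall_mem_cons.mpr ⟨(f20.trans k3), ?_⟩
  refine List.forall_mem_cons.mpr ⟨(f21.trans k3), ?_⟩
  refine List.forall_mem_cons.mpr ⟨(f22.trans k3), ?_⟩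
  refine List.forall_mem_cons.mpr ⟨(f23.trans k4), ?_⟩
  refine List.forall_mem_cons.mpr ⟨(f24.trans k5), ?_⟩
  refine List.forall_mem_cons.mpr ⟨(f25.trans k6), ?_⟩
  refine List.forall_mem_cons.mpr ⟨(f26.trans k6), ?_⟩
  refine List.forall_mem_cons.mpr ⟨(f27.trans k6), ?_⟩
  refine List.forall_mem_cons.mpr ⟨(f28.trans k6), ?_⟩
  refine List.forall_mem_cons.mpr ⟨(f29.trans k6), ?_⟩
  refine List.forall_mem_cons.mpr ⟨(f30.trans k6), ?_⟩
  refine List.forall_mem_cons.mpr ⟨(f31.trans k6), ?_⟩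
  refine List.forall_mem_cons.mpr ⟨(f32.trans k6), ?_⟩
  refine List.forall_mem_cons.mpr ⟨(f33.trans k6), ?_⟩
  refine List.forall_mem_cons.mpr ⟨(f34.trans k6), ?_⟩
  refine List.forall_mem_cons.mpr ⟨(f35.trans k6), ?_⟩
  refine List.forall_mem_cons.mpr ⟨(f36.trans k6), ?_⟩
  refine List.forall_mem_cons.mpr ⟨f37, ?_⟩
  refine List.forall_mem_cons.mpr ⟨f38, ?_⟩
  refine List.forall_mem_cons.mpr ⟨f39, ?_⟩
  refine List.forall_mem_cons.mpr ⟨f40, ?_⟩
  refine List.forall_mem_cons.mpr ⟨f41, ?_⟩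
  refine List.forall_mem_cons.mpr ⟨f42, ?_⟩
  refine List.forall_mem_cons.mpr ⟨f43, ?_⟩
  refine List.forall_mem_cons.mpr ⟨f0, ?_⟩
  exact fun x hx => absurd hx List.not_mem_nil

theorem not_hasNonconst_Q : ¬ HasNonconst op3 (edgeSet polyQ) := by
  rintro ⟨c, hc, u, v, hu, hv, huv⟩
  have h := const_Q c hc
  exact huv ((h u (vtx_mem_of_edgeSet hu)).trans (h v (vtx_mem_of_edgeSet hv)).symm)

/-- The two polygons lie in different ergodicity classes. -/
theorem not_sameClass : ¬ SameClass 1 (edgeSet polyP) (edgeSet polyQ) := fun h =>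
  not_hasNonconst_Q ((h.hasNonconst_iff op3_idem op3_inv).mp hasNonconst_P)

/-- The two polygons have the same knot type. -/
theorem sameKnotType : SameKnotType (edgeSet polyP) (edgeSet polyQ) := by
  rw [← polyQ_eq]
  exact sameKnotType_halfTurn polyP

end Pool.Agent.Lib.MP_dd2c10_pr
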